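import Pool.Graph.R_seed8.Helper337.AmalgamProof

/-!
# Admissible triples with an arbitrary group `S` in the place of `SL(2,K)`

`RealLieGroup` and `IsLieInclusion` are the definitions of the library
(`Pool.Graph.R_seed8.Helper337.AmalgamDefs`).
-/

set_option autoImplicit false

namespace Pool.Agent.H68.AM

open Topology
open scoped Manifold ContDiff MatrixGroups Pointwise
open Pool.Agent.Helper337.Amalgam (RealLieGroup IsLieInclusion rangeEquiv rangeEquiv_coe
  quotient_of_hom)

/-- Conditions (1) and (2) for one index: `H` is a closed subgroup of `G` and a Lie group (there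
are a real Lie group `L` and an isomorphism of topological groups `e : L → H`), and `B` is a
nilpotent normal subgroup of `H`, the image of a simply connected Lie group `M` under an injective
immersion `j : M → L`, with `H / B` isomorphic to `S` as a topological group. -/
structure Piece (S : Type) [Group S] [TopologicalSpace S] {G : Type} [Group G]
    [TopologicalSpace G] (H B : Subgroup G) : Prop where
  closed : IsClosed (H : Set G)
  le : B ≤ H
  nilpotent : Group.IsNilpotent ↥B
  lie : ∃ (L : RealLieGroup) (e : L.carrier ≃ₜ* ↥H) (M : RealLieGroup)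
    (j : M.carrier →* L.carrier), IsLieInclusion M L j ∧ SimplyConnectedSpace M.carrier ∧
      ∀ x : L.carrier, x ∈ j.range ↔ (e x : G) ∈ B
  quotient : ∃ _ : (B.subgroupOf H).Normal, Nonempty ((↥H ⧸ B.subgroupOf H) ≃ₜ* S)

/-- The admissible triples `(G; G₁, G₂)`, where `B₁, B₂` are the normal subgroups of condition (2)
and `S` is `SL(2,K)`; no nontrivial subgroup of `B₁ ∩ B₂` at all is normal in `G`. -/
structure Admissible (S : Type) [Group S] [TopologicalSpace S] {G : Type} [Group G]
    [TopologicalSpace G] (G₁ G₂ B₁ B₂ : Subgroup G) : Prop where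
  topologicalGroup : IsTopologicalGroup G
  hausdorff : T2Space G
  piece₁ : Piece S G₁ B₁
  piece₂ : Piece S G₂ B₂
  product_le : ∀ b₁ ∈ B₁, ∀ b₂ ∈ B₂, b₁ * b₂ ∈ G₁ ⊓ G₂
  core : ∀ N : Subgroup G, N ≤ B₁ ⊓ B₂ → N.Normal → N = ⊥

theorem piece_of_embedding {S : Type} [Group S] [TopologicalSpace S] {G : Type} [Group G]
    [TopologicalSpace G] [IsTopologicalGroup G]
    (L : RealLieGroup) (f : L.carrier →* G) (hf : IsClosedEmbedding f)
    (M : RealLieGroup) (j : M.carrier →* L.carrier) (hj : IsLieInclusion M L j)
    (hM : SimplyConnectedSpace M.carrier) (hn : Group.IsNilpotent M.carrier)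
    (p : L.carrier →* S) (hp : Function.Surjective p) (hc : Continuous p)
    (ho : IsOpenMap p) (hk : p.ker = j.range) : Piece S f.range (j.range.map f) where
  closed := hf.isClosed_range
  le := by
    rw [MonoidHom.range_eq_map f]
    exact Subgroup.map_mono le_top
  nilpotent := by
    have h1 : Function.Surjective (f.comp j).rangeRestrict := MonoidHom.rangeRestrict_surjective _
    have h2 : Group.IsNilpotent ↥(f.comp j).range :=
      Group.nilpotent_of_surjective (f.comp j).rangeRestrict h1
    rw [MonoidHom.range_comp] at h2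
    exact h2
  lie := by
    refine ⟨L, rangeEquiv f hf, M, j, hj, hM, fun x => ?_⟩
    rw [rangeEquiv_coe, Subgroup.mem_map_iff_mem hf.injective]
  quotient := by
    let e := rangeEquiv f hf
    let p' : ↥f.range →* S := p.comp (e.symm : ↥f.range →* L.carrier)
    apply quotient_of_hom p'
    · exact hp.comp e.symm.surjective
    · exact hc.comp e.symm.continuous
    · exact ho.comp e.symm.toHomeomorph.isOpenMap
    · ext x
      obtain ⟨y, rfl⟩ := e.surjective x
      have h1 : p' (e y) = p y := by
        change p (e.symm (e y)) = p y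
        rw [ContinuousMulEquiv.symm_apply_apply]
      rw [MonoidHom.mem_ker, h1, Subgroup.mem_subgroupOf, ← MonoidHom.mem_ker, hk]
      change _ ↔ f y ∈ _
      rw [Subgroup.mem_map_iff_mem hf.injective]

/-- In an admissible triple `B₁ ⊔ B₂` is the product set `B₁B₂`. -/
theorem coe_sup_eq_mul {S : Type} [Group S] [TopologicalSpace S] {G : Type} [Group G]
    [TopologicalSpace G] {G₁ G₂ B₁ B₂ : Subgroup G}
    (h : Admissible S G₁ G₂ B₁ B₂) : ((B₁ ⊔ B₂ : Subgroup G) : Set G) = (B₁ : Set G) * B₂ := by
  apply Subgroup.coe_mul_of_right_le_normalizer_left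
  obtain ⟨hn, _⟩ := h.piece₁.quotient
  have := hn
  have h1 : G₁ ≤ Subgroup.normalizer B₁ := Subgroup.le_normalizer_of_normal_subgroupOf h.piece₁.le
  refine le_trans ?_ h1
  intro b hb
  have := h.product_le 1 (one_mem _) b hb
  rw [one_mul] at this
  exact this.1

/-- The library's admissible triples with `K = ℝ` are the ones with `S = SL(2,ℝ)`. -/
theorem admissible_of_lib {G : Type} [Group G] [TopologicalSpace G] {G₁ G₂ B₁ B₂ : Subgroup G}
    (h : Pool.Agent.Helper337.Amalgam.Admissible G G₁ G₂ B₁ B₂) :
    Admissible SL(2,ℝ) G₁ G₂ B₁ B₂ where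
  topologicalGroup := h.topologicalGroup
  hausdorff := h.hausdorff
  piece₁ := ⟨h.piece₁.closed, h.piece₁.le, h.piece₁.nilpotent, h.piece₁.lie, h.piece₁.quotient⟩
  piece₂ := ⟨h.piece₂.closed, h.piece₂.le, h.piece₂.nilpotent, h.piece₂.lie, h.piece₂.quotient⟩
  product_le := h.product_le
  core := h.core

end Pool.Agent.H68.AM
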