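import Pool.Agent.H68.AM.Nil
import Pool.Agent.H68.AM.Defs

/-!
# The complex case
-/

set_option autoImplicit false

namespace Pool.Agent.H68.AM
open Pool.Agent.Helper337.Amalgam (CE actHom trans trans_ev continuous_actHom isClosedEmbedding_actHom RealLieGroup IsLieInclusion rangeEquiv rangeEquiv_coe quotient_of_hom immersion_of_leftInverse isClosedEmbedding_codRestrict)

open Matrix Topology
open scoped Manifold ContDiff MatrixGroups commutatorElement Pointwise

noncomputable section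

/-! ### the four Lie groups -/

/-- the first group `Q × SL₂(ℂ)` -/
def LG1 (k : ℕ) : RealLieGroup :=
  letI c : ChartedSpace ((VV k × ℂ) × (ℂ × ℂ × ℂ)) (QQ k × SL(2,ℂ)) :=
    (inferInstance : ChartedSpace (ModelProd (VV k × ℂ) (ℂ × ℂ × ℂ)) (QQ k × SL(2,ℂ)))
  { carrier := QQ k × SL(2,ℂ)
    E := (VV k × ℂ) × (ℂ × ℂ × ℂ)
    lie := by
      have h : LieGroup (𝓘(ℝ, VV k × ℂ).prod 𝓘(ℝ, ℂ × ℂ × ℂ)) ∞ (QQ k × SL(2,ℂ)) := inferInstance
      rw [← modelWithCornersSelf_prod] at h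
      exact h }

/-- the second group -/
def LG2 (k : ℕ) : RealLieGroup :=
  letI c : ChartedSpace ((ℂ × VV k) × (ℂ × ℂ × ℂ)) (LL k) :=
    (inferInstance : ChartedSpace (ModelProd (ℂ × VV k) (ℂ × ℂ × ℂ)) (LL k))
  { carrier := LL k
    E := (ℂ × VV k) × (ℂ × ℂ × ℂ)
    lie := by
      have h : LieGroup (𝓘(ℝ, ℂ × VV k).prod 𝓘(ℝ, ℂ × ℂ × ℂ)) ∞ (LL k) := inferInstance
      rw [← modelWithCornersSelf_prod] at h
      exact h }

def LM1 (k : ℕ) : RealLieGroup where
  carrier := QQ k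
  E := VV k × ℂ

def LM2 (k : ℕ) : RealLieGroup where
  carrier := MM k
  E := ℂ × VV k

def jj1 (k : ℕ) : QQ k →* QQ k × SL(2,ℂ) := MonoidHom.inl _ _

def jj2 (k : ℕ) : MM k →* LL k where
  toFun x := mkLL k x.1 x.2 1
  map_one' := rfl
  map_mul' x y := by
    apply Prod.ext
    · apply Prod.ext
      · rfl
      · change x.2 + y.2 = x.2 + rep k 1 y.2
        rw [rep_one]
    · change (1 : SL(2,ℂ)) = 1 * 1
      rw [one_mul]

def pp1 (k : ℕ) : QQ k × SL(2,ℂ) →* SL(2,ℂ) := MonoidHom.snd _ _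

def pp2 (k : ℕ) : LL k →* SL(2,ℂ) where
  toFun x := x.2
  map_one' := rfl
  map_mul' _ _ := rfl

theorem incl1 (k : ℕ) : IsLieInclusion (LM1 k) (LG1 k) (jj1 k) := by
  let f : (LM1 k).carrier → (LG1 k).carrier := jj1 k
  let q : (LG1 k).carrier → (LM1 k).carrier := fun x => x.1
  have hs : ContMDiff 𝓘(ℝ, (LM1 k).E) 𝓘(ℝ, (LG1 k).E) ∞ f := by
    have h : ContMDiff 𝓘(ℝ, VV k × ℂ) (𝓘(ℝ, VV k × ℂ).prod 𝓘(ℝ, ℂ × ℂ × ℂ)) ∞
        (fun x : QQ k => ((x, 1) : QQ k × SL(2,ℂ))) := contMDiff_id.prodMk contMDiff_const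
    rw [← modelWithCornersSelf_prod] at h
    exact h
  have hq : ContMDiff 𝓘(ℝ, (LG1 k).E) 𝓘(ℝ, (LM1 k).E) ∞ q := by
    have h : ContMDiff (𝓘(ℝ, VV k × ℂ).prod 𝓘(ℝ, ℂ × ℂ × ℂ)) 𝓘(ℝ, VV k × ℂ) ∞
        (fun x : QQ k × SL(2,ℂ) => x.1) := contMDiff_fst
    rw [← modelWithCornersSelf_prod] at h
    exact h
  exact
    { injective := fun x y h => congrArg Prod.fst h
      smooth := hs
      immersion := immersion_of_leftInverse (M := LM1 k) (L := LG1 k) f q hs hq (fun x => rfl) }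

theorem incl2 (k : ℕ) : IsLieInclusion (LM2 k) (LG2 k) (jj2 k) := by
  let f : (LM2 k).carrier → (LG2 k).carrier := jj2 k
  let q : (LG2 k).carrier → (LM2 k).carrier := fun x => x.1
  have hs : ContMDiff 𝓘(ℝ, (LM2 k).E) 𝓘(ℝ, (LG2 k).E) ∞ f := by
    have h : ContMDiff 𝓘(ℝ, ℂ × VV k) (𝓘(ℝ, ℂ × VV k).prod 𝓘(ℝ, ℂ × ℂ × ℂ)) ∞
        (fun x : ℂ × VV k => ((x, 1) : (ℂ × VV k) × SL(2,ℂ))) :=
      contMDiff_id.prodMk contMDiff_const
    rw [← modelWithCornersSelf_prod] at h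
    exact h
  have hq : ContMDiff 𝓘(ℝ, (LG2 k).E) 𝓘(ℝ, (LM2 k).E) ∞ q := by
    have h : ContMDiff (𝓘(ℝ, ℂ × VV k).prod 𝓘(ℝ, ℂ × ℂ × ℂ)) 𝓘(ℝ, ℂ × VV k) ∞
        (fun x : (ℂ × VV k) × SL(2,ℂ) => x.1) := contMDiff_fst
    rw [← modelWithCornersSelf_prod] at h
    exact h
  exact
    { injective := fun x y h => congrArg Prod.fst h
      smooth := hs
      immersion := immersion_of_leftInverse (M := LM2 k) (L := LG2 k) f q hs hq (fun x => rfl) }

theorem ker1 (k : ℕ) : (pp1 k).ker = (jj1 k).range := by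
  ext x
  rw [MonoidHom.mem_ker, MonoidHom.mem_range]
  constructor
  · intro h
    exact ⟨x.1, Prod.ext rfl h.symm⟩
  · rintro ⟨y, rfl⟩
    rfl

theorem ker2 (k : ℕ) : (pp2 k).ker = (jj2 k).range := by
  ext x
  rw [MonoidHom.mem_ker, MonoidHom.mem_range]
  constructor
  · intro h
    exact ⟨x.1, Prod.ext rfl h.symm⟩
  · rintro ⟨y, rfl⟩
    rfl

/-! ### the ambient group -/

/-- the ambient group: generated by the two groups inside the group of homeomorphisms of `LL k` -/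
def Gam (k : ℕ) : Subgroup (CE (LL k))ˣ := (iot1 k).range ⊔ (iot2 k).range

/-- the first embedding -/
def kap1 (k : ℕ) : QQ k × SL(2,ℂ) →* ↥(Gam k) :=
  (iot1 k).codRestrict (Gam k) (fun x => (le_sup_left : (iot1 k).range ≤ Gam k) ⟨x, rfl⟩)

/-- the second embedding -/
def kap2 (k : ℕ) : LL k →* ↥(Gam k) :=
  (iot2 k).codRestrict (Gam k) (fun x => (le_sup_right : (iot2 k).range ≤ Gam k) ⟨x, rfl⟩)

theorem emb1 (k : ℕ) : IsClosedEmbedding (kap1 k) :=
  isClosedEmbedding_codRestrict _ (isClosedEmbedding_actHom (theta k)) _ _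

theorem emb2 (k : ℕ) : IsClosedEmbedding (kap2 k) :=
  isClosedEmbedding_codRestrict _ (isClosedEmbedding_actHom (Homeomorph.refl (LL k))) _ _

theorem gen (k : ℕ) : (kap1 k).range ⊔ (kap2 k).range = ⊤ := by
  apply Subgroup.map_injective (Gam k).subtype_injective
  rw [Subgroup.map_sup]
  have h1 : (kap1 k).range.map (Gam k).subtype = (iot1 k).range := by
    rw [← MonoidHom.range_comp]; rfl
  have h2 : (kap2 k).range.map (Gam k).subtype = (iot2 k).range := by
    rw [← MonoidHom.range_comp]; rfl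
  rw [h1, h2, ← MonoidHom.range_eq_map, Subgroup.range_subtype]
  rfl

/-- the first normal subgroup -/
def BB1 (k : ℕ) : Subgroup ↥(Gam k) := (jj1 k).range.map (kap1 k)

/-- the second normal subgroup -/
def BB2 (k : ℕ) : Subgroup ↥(Gam k) := (jj2 k).range.map (kap2 k)

theorem mem_BB1 (k : ℕ) (x : ↥(Gam k)) : x ∈ BB1 k ↔ ∃ q : QQ k, kap1 k (q, 1) = x := by
  unfold BB1
  rw [Subgroup.mem_map]
  constructor
  · rintro ⟨y, ⟨q, rfl⟩, rfl⟩
    exact ⟨q, rfl⟩
  · rintro ⟨q, rfl⟩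
    exact ⟨(q, 1), ⟨q, rfl⟩, rfl⟩

theorem mem_BB2 (k : ℕ) (x : ↥(Gam k)) :
    x ∈ BB2 k ↔ ∃ (t : ℂ) (v : VV k), kap2 k (mkLL k t v 1) = x := by
  unfold BB2
  rw [Subgroup.mem_map]
  constructor
  · rintro ⟨y, ⟨q, rfl⟩, rfl⟩
    exact ⟨q.1, q.2, rfl⟩
  · rintro ⟨t, v, rfl⟩
    exact ⟨mkLL k t v 1, ⟨(t, v), rfl⟩, rfl⟩

theorem agree' (k : ℕ) (t : ℂ) (q : QQ k) :
    kap1 k (q, uu (t - ph k q.1)) = kap2 k (mkLL k t q.1 (uu q.2)) :=
  Subtype.ext (agree k t q)

theorem BB1_eq (k : ℕ) (q : QQ k) : kap1 k (q, 1) = kap2 k (mkLL k (ph k q.1) q.1 (uu q.2)) := by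
  have h := agree' k (ph k q.1) q
  rwa [sub_self, uu_zero] at h

theorem BB2_eq (k : ℕ) (t : ℂ) (v : VV k) :
    kap2 k (mkLL k t v 1) = kap1 k (mkQQ k v 0, uu (t - ph k v)) := by
  have h := agree' k t (mkQQ k v 0)
  have h1 : uu (mkQQ k v 0).2 = 1 := uu_zero
  rw [h1] at h
  exact h.symm

theorem eq_of_kap (k : ℕ) (x : QQ k × SL(2,ℂ)) (y : LL k) (h : kap1 k x = kap2 k y) :
    theta k x = y := by
  have h1 : iot1 k x = iot2 k y := congrArg Subtype.val h
  have h2 : (iot1 k x : CE (LL k)).ev (theta k 1) = (iot2 k y : CE (LL k)).ev (theta k 1) := by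
    rw [h1]
  have h3 : (iot1 k x : CE (LL k)).ev (theta k 1) = theta k x := by
    change theta k (x * (theta k).symm (theta k 1)) = theta k x
    rw [Homeomorph.symm_apply_apply, mul_one]
  have h4 : (iot2 k y : CE (LL k)).ev (theta k 1) = y := by
    change y * theta k 1 = y
    have : theta k 1 = 1 := by
      rw [theta_apply]
      apply Prod.ext
      · apply Prod.ext
        · change tau 1 + ph k 0 = 0
          rw [tau_one]; simp [ph]
        · rfl
      · change uu (0 - tau 1) * 1 = 1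
        rw [tau_one, sub_zero, uu_zero, one_mul]
    rw [this, mul_one]
  rw [← h3, h2, h4]

/-- elements of `B₁ ∩ B₂` -/
theorem mem_inter (k : ℕ) (t : ℂ) (v : VV k) (h : kap2 k (mkLL k t v 1) ∈ BB1 k) :
    t = ph k v := by
  obtain ⟨q, hq⟩ := (mem_BB1 k _).mp h
  have h1 := eq_of_kap k _ _ hq
  rw [theta_apply] at h1
  have h2 : tau (1 : SL(2,ℂ)) + ph k q.1 = t := congrArg (fun z : LL k => z.1.1) h1
  have h3 : q.1 = v := congrArg (fun z : LL k => z.1.2) h1
  rw [tau_one, zero_add, h3] at h2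
  exact h2.symm

theorem core_free (k : ℕ) (hk : 0 < k) (N : Subgroup ↥(Gam k)) (hN : N ≤ BB1 k ⊓ BB2 k)
    (hn : N.Normal) : N = ⊥ := by
  rw [eq_bot_iff]
  intro n hnN
  have hn2 := (hN hnN).2
  obtain ⟨t, v, rfl⟩ := (mem_BB2 k _).mp hn2
  have ht : t = ph k v := mem_inter k t v (hN hnN).1
  have hv : v = 0 := by
    apply eq_zero_of_ph k hk
    intro g
    have h1 := hn.conj_mem _ hnN (kap2 k (mkLL k 0 0 g))
    rw [← map_inv, ← map_mul, ← map_mul] at h1
    have h2 : mkLL k 0 0 g * mkLL k t v 1 * (mkLL k 0 0 g)⁻¹ = mkLL k t (rep k g v) 1 := by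
      apply Prod.ext
      · apply Prod.ext
        · change (0 : ℂ) + t + -0 = t
          ring
        · change (0 : VV k) + rep k g v + rep k (g * 1) (-rep k g⁻¹ 0) = rep k g v
          rw [rep_zero, neg_zero, rep_zero, zero_add, add_zero]
      · change g * 1 * g⁻¹ = 1
        rw [mul_one, mul_inv_cancel]
    rw [h2] at h1
    have h3 := mem_inter k t (rep k g v) (hN h1).1
    rw [← h3, ht]
  rw [Subgroup.mem_bot, ht, hv]
  have : mkLL k (ph k 0) 0 1 = 1 := rfl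
  rw [this, map_one]

theorem piece1 (k : ℕ) : Piece SL(2,ℂ) (kap1 k).range (BB1 k) := by
  have := isNilpotent_QQ k
  exact piece_of_embedding (LG1 k) (kap1 k) (emb1 k) (LM1 k) (jj1 k) (incl1 k)
    (inferInstanceAs (SimplyConnectedSpace (QQ k))) this (pp1 k) (fun g => ⟨(1, g), rfl⟩)
    continuous_snd isOpenMap_snd (ker1 k)

theorem piece2 (k : ℕ) : Piece SL(2,ℂ) (kap2 k).range (BB2 k) :=
  piece_of_embedding (LG2 k) (kap2 k) (emb2 k) (LM2 k) (jj2 k) (incl2 k)
    (inferInstanceAs (SimplyConnectedSpace (MM k)))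
    (inferInstanceAs (Group.IsNilpotent (MM k))) (pp2 k) (fun g => ⟨mkLL k 0 0 g, rfl⟩)
    (smooth_LL_2 k).continuous
    (by
      have : IsOpenMap (fun x : (ℂ × VV k) × SL(2,ℂ) => x.2) := isOpenMap_snd
      exact this) (ker2 k)

theorem admissible (k : ℕ) (hk : 0 < k) :
    Admissible SL(2,ℂ) (kap1 k).range (kap2 k).range (BB1 k) (BB2 k) where
  topologicalGroup := inferInstance
  hausdorff := inferInstance
  piece₁ := piece1 k
  piece₂ := piece2 k
  product_le := by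
    intro b₁ h₁ b₂ h₂
    have h1 : b₁ ∈ (kap1 k).range ⊓ (kap2 k).range := by
      obtain ⟨q, rfl⟩ := (mem_BB1 k _).mp h₁
      exact ⟨⟨_, rfl⟩, ⟨_, (BB1_eq k q).symm⟩⟩
    have h2 : b₂ ∈ (kap1 k).range ⊓ (kap2 k).range := by
      obtain ⟨t, v, rfl⟩ := (mem_BB2 k _).mp h₂
      exact ⟨⟨_, (BB2_eq k t v).symm⟩, ⟨_, rfl⟩⟩
    exact mul_mem h1 h2
  core := core_free k hk

/-! ### the group `B₁B₂` -/

/-- the one-dimensional group `ℂ`, written multiplicatively -/
def TT : Type := ℂ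

instance : TopologicalSpace TT := inferInstanceAs (TopologicalSpace ℂ)
instance : T2Space TT := inferInstanceAs (T2Space ℂ)
instance : SecondCountableTopology TT := inferInstanceAs (SecondCountableTopology ℂ)
instance : ChartedSpace ℂ TT := inferInstanceAs (ChartedSpace ℂ ℂ)

/-- the value -/
def tv (x : TT) : ℂ := x

instance : CommGroup TT where
  mul x y := Add.add (α := ℂ) x y
  one := (0 : ℂ)
  inv x := Neg.neg (α := ℂ) x
  mul_assoc x y z := add_assoc (G := ℂ) x y z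
  one_mul x := zero_add (M := ℂ) x
  mul_one x := add_zero (M := ℂ) x
  inv_mul_cancel x := neg_add_cancel (G := ℂ) x
  mul_comm x y := add_comm (G := ℂ) x y

instance : LieGroup 𝓘(ℝ, ℂ) ∞ TT where
  toIsManifold := inferInstanceAs (IsManifold 𝓘(ℝ, ℂ) ∞ ℂ)
  contMDiff_mul := by
    have : ContMDiff (𝓘(ℝ, ℂ).prod 𝓘(ℝ, ℂ)) 𝓘(ℝ, ℂ) ∞
      (fun p : ℂ × ℂ => p.1 + p.2) := contMDiff_add _ _
    exact this
  contMDiff_inv := by
    have : ContMDiff 𝓘(ℝ, ℂ) 𝓘(ℝ, ℂ) ∞ (fun p : ℂ => -p) := contMDiff_neg _ _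
    exact this

/-- the group `ℂ × Q`, isomorphic to `B₁B₂` -/
def LP (k : ℕ) : RealLieGroup :=
  letI c : ChartedSpace (ℂ × (VV k × ℂ)) (TT × QQ k) :=
    (inferInstance : ChartedSpace (ModelProd ℂ (VV k × ℂ)) (TT × QQ k))
  { carrier := TT × QQ k
    E := ℂ × (VV k × ℂ)
    lie := by
      have h : LieGroup (𝓘(ℝ, ℂ).prod 𝓘(ℝ, VV k × ℂ)) ∞ (TT × QQ k) := inferInstance
      rw [← modelWithCornersSelf_prod] at h
      exact h }

/-- the homomorphism onto `B₁B₂` -/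
def PT (k : ℕ) : TT × QQ k →* LL k where
  toFun x := mkLL k x.1 x.2.1 (uu x.2.2)
  map_one' := by
    apply Prod.ext
    · rfl
    · exact uu_zero
  map_mul' x y := by
    apply Prod.ext
    · rfl
    · exact uu_add _ _

theorem emb_PT (k : ℕ) : IsClosedEmbedding (PT k) := by
  have hl : Function.LeftInverse
      (fun y : LL k => (((y.1.1 : ℂ), ((y.1.2, tau y.2) : QQ k)) : TT × QQ k)) (PT k) := by
    intro x
    apply Prod.ext
    · rfl
    · apply Prod.ext
      · rfl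
      · exact tau_uu _
  have h2 : Continuous (fun x : LL k => x.2) := (smooth_LL_2 k).continuous
  have h3 : Continuous (fun x : LL k => tau x.2) := continuous_tau.comp h2
  have h11 : Continuous (fun x : LL k => x.1.1) := (smooth_LL_11 k).continuous
  have h12 : Continuous (fun x : LL k => x.1.2) := (smooth_LL_12 k).continuous
  have h4 : Continuous (fun y : LL k => ((y.1.2, tau y.2) : QQ k)) := h12.prodMk h3
  refine hl.isClosedEmbedding (h11.prodMk h4) ?_
  have g1 : Continuous (fun x : TT × QQ k => (x.1 : ℂ)) := continuous_fst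
  have g2 : Continuous (fun x : TT × QQ k => x.2.1) :=
    (contMDiff_QQ_fst k).continuous.comp continuous_snd
  have g3 : Continuous (fun x : TT × QQ k => x.2.2) :=
    (contMDiff_QQ_snd k).continuous.comp continuous_snd
  have g4 : Continuous (fun x : TT × QQ k =>
      ((((x.1 : ℂ), x.2.1), uu x.2.2) : (ℂ × VV k) × SL(2,ℂ))) :=
    (g1.prodMk g2).prodMk (continuous_uu.comp g3)
  exact g4

/-- the homomorphism onto `B₁B₂` -/
def FF (k : ℕ) : TT × QQ k →* ↥(Gam k) := (kap2 k).comp (PT k)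

theorem emb_FF (k : ℕ) : IsClosedEmbedding (FF k) := (emb2 k).comp (emb_PT k)

theorem range_FF (k : ℕ) : (FF k).range = BB1 k ⊔ BB2 k := by
  apply le_antisymm
  · rintro _ ⟨x, rfl⟩
    have h : PT k x = mkLL k (tv x.1 - ph k x.2.1) 0 1 *
        mkLL k (ph k x.2.1) x.2.1 (uu x.2.2) := by
      apply Prod.ext
      · apply Prod.ext
        · change tv x.1 = (tv x.1 - ph k x.2.1) + ph k x.2.1
          ring
        · change x.2.1 = 0 + rep k 1 x.2.1
          rw [rep_one, zero_add]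
      · change uu x.2.2 = 1 * uu x.2.2
        rw [one_mul]
    change kap2 k (PT k x) ∈ _
    rw [h, map_mul]
    refine mul_mem ?_ ?_
    · exact (le_sup_right : BB2 k ≤ BB1 k ⊔ BB2 k) ((mem_BB2 k _).2 ⟨_, _, rfl⟩)
    · rw [← BB1_eq]
      exact (le_sup_left : BB1 k ≤ BB1 k ⊔ BB2 k) ((mem_BB1 k _).2 ⟨_, rfl⟩)
  · apply sup_le
    · intro x hx
      obtain ⟨q, rfl⟩ := (mem_BB1 k x).mp hx
      exact ⟨((ph k q.1 : ℂ), q), (BB1_eq k q).symm⟩
    · intro x hx
      obtain ⟨t, v, rfl⟩ := (mem_BB2 k x).mp hx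
      refine ⟨((t : ℂ), mkQQ k v 0), ?_⟩
      change kap2 k (mkLL k t v (uu 0)) = _
      rw [uu_zero]

theorem class_prod (k : ℕ) : Group.nilpotencyClass (TT × QQ k) = k + 1 := by
  have := isNilpotent_QQ k
  rw [Group.nilpotencyClass_prod, class_QQ]
  have h : Group.nilpotencyClass TT ≤ 1 := CommGroup.nilpotencyClass_le_one
  omega

theorem exact_class (k : ℕ) (S : Subgroup ↥(Gam k)) (hS : (FF k).range = S) :
    Group.IsNilpotent ↥S ∧ Group.nilpotencyClass ↥S = k + 1 ∧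
      IsClosed (S : Set ↥(Gam k)) ∧
      ∃ (L : RealLieGroup) (_ : L.carrier ≃ₜ* ↥S), SimplyConnectedSpace L.carrier ∧
        Module.finrank ℝ L.E = (k + 3) * Module.finrank ℝ ℂ := by
  subst hS
  have hQ := isNilpotent_QQ k
  have hn : Group.IsNilpotent (TT × QQ k) := inferInstance
  let e := rangeEquiv (FF k) (emb_FF k)
  have h1 : Group.IsNilpotent ↥(FF k).range :=
    Group.nilpotent_of_surjective (e : TT × QQ k →* ↥(FF k).range) e.surjective
  refine ⟨h1, ?_, (emb_FF k).isClosed_range, ⟨LP k, e, ?_, ?_⟩⟩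
  · apply le_antisymm
    · have h2 := Group.nilpotencyClass_le_of_surjective
        (e : TT × QQ k →* ↥(FF k).range) e.surjective
      rwa [class_prod] at h2
    · have h2 := Group.nilpotencyClass_le_of_surjective
        (e.symm : ↥(FF k).range →* TT × QQ k) e.symm.surjective
      rwa [class_prod] at h2
  · exact inferInstanceAs (SimplyConnectedSpace (ℂ × (VV k × ℂ)))
  · change Module.finrank ℝ (ℂ × ((Fin (k + 1) → ℂ) × ℂ)) = _
    rw [Module.finrank_prod, Module.finrank_prod, Module.finrank_pi_fintype]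
    simp
    ring


end

end Pool.Agent.H68.AM
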