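import Pool.Agent.H68.AM.Sl

/-!
# The groups of the construction over `ℂ`
-/

set_option autoImplicit false

namespace Pool.Agent.H68.AM

open Matrix Topology
open scoped Manifold ContDiff MatrixGroups commutatorElement Pointwise

noncomputable section

/-! ### binary forms of degree `k` -/

/-- coefficient vectors of binary forms `∑ cᵢ xⁱ y^{k-i}` of degree `k` -/
abbrev VV (k : ℕ) : Type := Fin (k + 1) → ℂ

/-- the value of the form at `(x,y)` -/
def form (k : ℕ) (v : VV k) (x y : ℂ) : ℂ := ∑ i : Fin (k + 1), v i * (x ^ (i : ℕ) * y ^ (k - (i : ℕ)))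

/-- coefficient of `x^j y^{k-j}` in `(a x + c y)^i (b x + d y)^{k-i}` -/
def coefM (k : ℕ) (a b c d : ℂ) (i j : ℕ) : ℂ :=
  ∑ l ∈ Finset.range (i + 1), ∑ m ∈ Finset.range (k - i + 1),
    if l + m = j then
      (a ^ l * c ^ (i - l) * (i.choose l : ℂ)) * (b ^ m * d ^ (k - i - m) * ((k - i).choose m : ℂ))
    else 0

theorem coefM_spec (k : ℕ) (a b c d : ℂ) (i : ℕ) (hi : i ≤ k) (x y : ℂ) :
    (x * a + y * c) ^ i * (x * b + y * d) ^ (k - i) =
      ∑ j : Fin (k + 1), coefM k a b c d i j * (x ^ (j : ℕ) * y ^ (k - (j : ℕ))) := by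
  rw [Finset.sum_fin_eq_sum_range]
  have h0 : ∀ j ∈ Finset.range (k + 1), (if h : j < k + 1 then
      coefM k a b c d i ((⟨j, h⟩ : Fin (k+1)) : ℕ) * (x ^ ((⟨j, h⟩ : Fin (k+1)) : ℕ) *
        y ^ (k - ((⟨j, h⟩ : Fin (k+1)) : ℕ))) else 0) = coefM k a b c d i j * (x ^ j * y ^ (k - j)) := by
    intro j hj
    rw [dif_pos (Finset.mem_range.mp hj)]
  rw [Finset.sum_congr rfl h0, add_pow, add_pow, Finset.sum_mul_sum]
  have h1 : ∀ j ∈ Finset.range (k + 1), coefM k a b c d i j * (x ^ j * y ^ (k - j)) =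
      ∑ l ∈ Finset.range (i + 1), ∑ m ∈ Finset.range (k - i + 1),
        if l + m = j then
          (a ^ l * c ^ (i - l) * (i.choose l : ℂ)) *
            (b ^ m * d ^ (k - i - m) * ((k - i).choose m : ℂ)) * (x ^ j * y ^ (k - j))
        else 0 := by
    intro j _
    rw [coefM, Finset.sum_mul]
    apply Finset.sum_congr rfl
    intro l _
    rw [Finset.sum_mul]
    apply Finset.sum_congr rfl
    intro m _
    rw [ite_mul, zero_mul]
  rw [Finset.sum_congr rfl h1]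
  conv_rhs => rw [Finset.sum_comm]
  apply Finset.sum_congr rfl
  intro l hl
  conv_rhs => rw [Finset.sum_comm]
  apply Finset.sum_congr rfl
  intro m hm
  rw [Finset.mem_range] at hl hm
  have hlm : l + m ∈ Finset.range (k + 1) := by rw [Finset.mem_range]; omega
  rw [Finset.sum_ite_eq, if_pos hlm]
  have e1 : k - (l + m) = (i - l) + (k - i - m) := by omega
  rw [e1, mul_pow, mul_pow, mul_pow, mul_pow, pow_add, pow_add]
  ring

/-- the action of a matrix with entries `a b c d` on forms -/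
def actM (k : ℕ) (a b c d : ℂ) (v : VV k) : VV k :=
  fun j => ∑ i : Fin (k + 1), v i * coefM k a b c d i j

theorem form_actM (k : ℕ) (a b c d : ℂ) (v : VV k) (x y : ℂ) :
    form k (actM k a b c d v) x y = form k v (x * a + y * c) (x * b + y * d) := by
  unfold form actM
  simp_rw [Finset.sum_mul]
  rw [Finset.sum_comm]
  apply Finset.sum_congr rfl
  intro i _
  rw [coefM_spec k a b c d i (by omega) x y, Finset.mul_sum]
  apply Finset.sum_congr rfl
  intro j _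
  ring

theorem form_inj (k : ℕ) {v w : VV k} (h : ∀ y, form k v 1 y = form k w 1 y) : v = w := by
  have h1 : (∑ i : Fin (k + 1), Polynomial.C (v i) * Polynomial.X ^ (k - (i : ℕ))) =
      ∑ i : Fin (k + 1), Polynomial.C (w i) * Polynomial.X ^ (k - (i : ℕ)) := by
    apply Polynomial.funext
    intro y
    have := h y
    simp only [form, one_pow, one_mul] at this
    simpa [Polynomial.eval_finsetSum] using this
  have hc : ∀ u : VV k, ∀ j : Fin (k + 1),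
      (∑ i : Fin (k + 1), Polynomial.C (u i) * Polynomial.X ^ (k - (i : ℕ))).coeff (k - (j : ℕ))
        = u j := by
    intro u j
    rw [Polynomial.finsetSum_coeff, Finset.sum_eq_single j]
    · simp
    · intro i _ hij
      rw [Polynomial.coeff_C_mul, Polynomial.coeff_X_pow, if_neg, mul_zero]
      intro hh
      apply hij
      apply Fin.ext
      omega
    · intro hj; exact absurd (Finset.mem_univ j) hj
  ext j
  rw [← hc v j, ← hc w j, h1]

/-- the representation of `SL(2,ℂ)` on binary forms -/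
def rep (k : ℕ) (g : SL(2,ℂ)) (v : VV k) : VV k := actM k (g 0 0) (g 0 1) (g 1 0) (g 1 1) v

theorem form_ext (k : ℕ) {v w : VV k} (h : ∀ x y, form k v x y = form k w x y) : v = w :=
  form_inj k (fun y => h 1 y)

theorem form_add (k : ℕ) (v w : VV k) (x y : ℂ) :
    form k (v + w) x y = form k v x y + form k w x y := by
  simp [form, add_mul, Finset.sum_add_distrib]

theorem form_neg (k : ℕ) (v : VV k) (x y : ℂ) : form k (-v) x y = - form k v x y := by
  simp [form]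

theorem form_sub (k : ℕ) (v w : VV k) (x y : ℂ) :
    form k (v - w) x y = form k v x y - form k w x y := by
  rw [sub_eq_add_neg, form_add, form_neg, sub_eq_add_neg]

theorem form_zero (k : ℕ) (x y : ℂ) : form k 0 x y = 0 := by
  simp [form]

theorem form_rep (k : ℕ) (g : SL(2,ℂ)) (v : VV k) (x y : ℂ) :
    form k (rep k g v) x y = form k v (x * g 0 0 + y * g 1 0) (x * g 0 1 + y * g 1 1) :=
  form_actM k _ _ _ _ v x y

theorem rep_one (k : ℕ) (v : VV k) : rep k 1 v = v := by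
  apply form_ext
  intro x y
  rw [form_rep]
  simp

theorem rep_mul (k : ℕ) (g h : SL(2,ℂ)) (v : VV k) : rep k (g * h) v = rep k g (rep k h v) := by
  apply form_ext
  intro x y
  rw [form_rep, form_rep, form_rep]
  have : ∀ i j : Fin 2, (g * h) i j = g i 0 * h 0 j + g i 1 * h 1 j := by
    intro i j
    have : (g * h) i j =
      ((g : Matrix (Fin 2) (Fin 2) ℂ) * (h : Matrix (Fin 2) (Fin 2) ℂ)) i j := rfl
    rw [this, Matrix.mul_apply, Fin.sum_univ_two]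
  rw [this, this, this, this]
  congr 1 <;> ring

theorem rep_add (k : ℕ) (g : SL(2,ℂ)) (v w : VV k) :
    rep k g (v + w) = rep k g v + rep k g w := by
  apply form_ext
  intro x y
  rw [form_add, form_rep, form_rep, form_rep, form_add]

theorem rep_neg (k : ℕ) (g : SL(2,ℂ)) (v : VV k) : rep k g (-v) = - rep k g v := by
  apply form_ext
  intro x y
  rw [form_neg, form_rep, form_rep, form_neg]

theorem rep_zero (k : ℕ) (g : SL(2,ℂ)) : rep k g 0 = 0 := by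
  apply form_ext
  intro x y
  rw [form_rep, form_zero, form_zero]

/-- the functional `f ↦ f(0,1)`, invariant under upper unipotent matrices -/
def ph (k : ℕ) (v : VV k) : ℂ := v 0

theorem ph_eq (k : ℕ) (v : VV k) : ph k v = form k v 0 1 := by
  unfold ph form
  rw [Finset.sum_eq_single 0]
  · simp
  · intro i _ hi
    have : (i : ℕ) ≠ 0 := fun h => hi (Fin.ext h)
    simp [this]
  · intro h; exact absurd (Finset.mem_univ _) h

theorem ph_rep (k : ℕ) (g : SL(2,ℂ)) (v : VV k) : ph k (rep k g v) = form k v (g 1 0) (g 1 1) := by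
  rw [ph_eq, form_rep]
  simp

theorem ph_add (k : ℕ) (v w : VV k) : ph k (v + w) = ph k v + ph k w := rfl

theorem form_smul_homog (k : ℕ) (v : VV k) (r x y : ℂ) :
    form k v (r * x) (r * y) = r ^ k * form k v x y := by
  unfold form
  rw [Finset.mul_sum]
  apply Finset.sum_congr rfl
  intro i _
  have : r ^ k = r ^ (i : ℕ) * r ^ (k - (i : ℕ)) := by
    rw [← pow_add]; congr 1; omega
  rw [mul_pow, mul_pow, this]
  ring

/-- a form with `φ(g v) = φ(v)` for all `g` vanishes (degree at least one) -/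
theorem eq_zero_of_ph (k : ℕ) (hk : 0 < k) (v : VV k)
    (h : ∀ g : SL(2,ℂ), ph k (rep k g v) = ph k v) : v = 0 := by
  have hconst : ∀ x y : ℂ, (x ≠ 0 ∨ y ≠ 0) → form k v x y = ph k v := by
    intro x y hxy
    have hr := rr_aux hxy
    have hi := mul_inv_cancel₀ hr
    let g : SL(2,ℂ) := ⟨!![cj y * (x * cj x + y * cj y)⁻¹, -cj x * (x * cj x + y * cj y)⁻¹; x, y], by
      rw [Matrix.det_fin_two]
      simp only [Matrix.of_apply, Matrix.cons_val', Matrix.cons_val_zero, Matrix.cons_val_one,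
        Matrix.cons_val_fin_one]
      generalize (x * cj x + y * cj y)⁻¹ = i at *
      linear_combination hi⟩
    have h1 := h g
    rw [ph_rep] at h1
    exact h1
  have h1 := hconst 0 1 (Or.inr (by norm_num))
  have h2 := hconst 0 2 (Or.inr (by norm_num))
  have h3 := form_smul_homog k v 2 0 1
  rw [mul_zero, mul_one, h1, h2] at h3
  have h5 : ph k v = 0 := by
    have : (2 ^ k - 1) * ph k v = 0 := by rw [sub_mul, one_mul, ← h3, sub_self]
    rcases mul_eq_zero.mp this with h6 | h6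
    · exfalso
      have h7 : ((2 ^ k : ℕ) : ℂ) = ((1 : ℕ) : ℂ) := by
        push_cast
        linear_combination h6
      have h8 : 2 ^ k = 1 := Nat.cast_injective h7
      have h9 : 1 < 2 ^ k := Nat.one_lt_two_pow hk.ne'
      omega
    · exact h6
  apply form_inj k
  intro y
  rw [hconst 1 y (Or.inl one_ne_zero), h5, form_zero]

theorem contDiff_actM (k : ℕ) :
    ContDiff ℝ ∞ (fun p : (ℂ × ℂ × ℂ × ℂ) × VV k =>
      actM k p.1.1 p.1.2.1 p.1.2.2.1 p.1.2.2.2 p.2) := by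
  rw [contDiff_pi]
  intro j
  unfold actM
  apply ContDiff.sum
  intro i _
  apply ContDiff.mul
  · fun_prop
  · unfold coefM
    apply ContDiff.sum
    intro l _
    apply ContDiff.sum
    intro m _
    split_ifs
    · fun_prop
    · fun_prop

/-! ### the groups -/

theorem contMDiff_rep (k : ℕ) {E' H' M : Type} [NormedAddCommGroup E'] [NormedSpace ℝ E']
    [TopologicalSpace H'] {I : ModelWithCorners ℝ E' H'} [TopologicalSpace M] [ChartedSpace H' M]
    {f : M → SL(2,ℂ)} {v : M → VV k} (hf : ContMDiff I 𝓘(ℝ, ℂ × ℂ × ℂ) ∞ f)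
    (hv : ContMDiff I 𝓘(ℝ, VV k) ∞ v) : ContMDiff I 𝓘(ℝ, VV k) ∞ (fun x => rep k (f x) (v x)) := by
  have h1 : (fun x => rep k (f x) (v x)) = (fun p : (ℂ × ℂ × ℂ × ℂ) × VV k =>
      actM k p.1.1 p.1.2.1 p.1.2.2.1 p.1.2.2.2 p.2) ∘
      (fun x => (((f x) 0 0, (f x) 0 1, (f x) 1 0, (f x) 1 1), v x)) := rfl
  rw [h1]
  apply ContMDiff.comp (contDiff_actM k).contMDiff
  have he : ∀ i j : Fin 2, ContMDiff I 𝓘(ℝ, ℂ) ∞ (fun x => f x i j) :=
    fun i j => (smooth_entry i j).comp hf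
  exact ((he 0 0).prodMk_space ((he 0 1).prodMk_space ((he 1 0).prodMk_space (he 1 1)))).prodMk_space hv

theorem smooth_uu : ContMDiff 𝓘(ℝ, ℂ) 𝓘(ℝ, ℂ × ℂ × ℂ) ∞ uu := by
  apply smooth_into
  intro i j
  fin_cases i <;> fin_cases j
  · simp only [Fin.zero_eta, uu_00]; exact contMDiff_const
  · simp only [Fin.zero_eta, Fin.mk_one, uu_01]; exact contMDiff_id
  · simp only [Fin.zero_eta, Fin.mk_one, uu_10]; exact contMDiff_const
  · simp only [Fin.mk_one, uu_11]; exact contMDiff_const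

/-- the semidirect product of the space of forms with the unipotent group -/
def QQ (k : ℕ) : Type := VV k × ℂ

instance (k : ℕ) : TopologicalSpace (QQ k) := inferInstanceAs (TopologicalSpace (VV k × ℂ))
instance (k : ℕ) : T2Space (QQ k) := inferInstanceAs (T2Space (VV k × ℂ))
instance (k : ℕ) : SecondCountableTopology (QQ k) :=
  inferInstanceAs (SecondCountableTopology (VV k × ℂ))
instance (k : ℕ) : LocallyCompactSpace (QQ k) := inferInstanceAs (LocallyCompactSpace (VV k × ℂ))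
instance (k : ℕ) : SimplyConnectedSpace (QQ k) :=
  inferInstanceAs (SimplyConnectedSpace (VV k × ℂ))
instance (k : ℕ) : ChartedSpace (VV k × ℂ) (QQ k) :=
  inferInstanceAs (ChartedSpace (VV k × ℂ) (VV k × ℂ))

instance (k : ℕ) : Group (QQ k) where
  mul x y := (x.1 + rep k (uu x.2) y.1, x.2 + y.2)
  one := (0, 0)
  inv x := (- rep k (uu (-x.2)) x.1, -x.2)
  mul_assoc x y z := by
    apply Prod.ext
    · change (x.1 + rep k (uu x.2) y.1) + rep k (uu (x.2 + y.2)) z.1 =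
        x.1 + rep k (uu x.2) (y.1 + rep k (uu y.2) z.1)
      rw [uu_add, rep_mul, rep_add, add_assoc]
    · exact add_assoc _ _ _
  one_mul x := by
    apply Prod.ext
    · change 0 + rep k (uu 0) x.1 = x.1
      rw [uu_zero, rep_one, zero_add]
    · exact zero_add _
  mul_one x := by
    apply Prod.ext
    · change x.1 + rep k (uu x.2) 0 = x.1
      rw [rep_zero, add_zero]
    · exact add_zero _
  inv_mul_cancel x := by
    apply Prod.ext
    · change - rep k (uu (-x.2)) x.1 + rep k (uu (-x.2)) x.1 = 0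
      exact neg_add_cancel _
    · exact neg_add_cancel _

theorem QQ_mul (k : ℕ) (x y : QQ k) : x * y = (x.1 + rep k (uu x.2) y.1, x.2 + y.2) := rfl
theorem QQ_inv (k : ℕ) (x : QQ k) : x⁻¹ = (- rep k (uu (-x.2)) x.1, -x.2) := rfl
theorem QQ_one (k : ℕ) : (1 : QQ k) = ((0 : VV k), (0 : ℂ)) := rfl

theorem contMDiff_QQ_fst (k : ℕ) : ContMDiff 𝓘(ℝ, VV k × ℂ) 𝓘(ℝ, VV k) ∞
    (fun x : QQ k => x.1) := by
  have : ContMDiff 𝓘(ℝ, VV k × ℂ) 𝓘(ℝ, VV k) ∞ (fun x : VV k × ℂ => x.1) :=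
    contDiff_fst.contMDiff
  exact this

theorem contMDiff_QQ_snd (k : ℕ) : ContMDiff 𝓘(ℝ, VV k × ℂ) 𝓘(ℝ, ℂ) ∞
    (fun x : QQ k => x.2) := by
  have : ContMDiff 𝓘(ℝ, VV k × ℂ) 𝓘(ℝ, ℂ) ∞ (fun x : VV k × ℂ => x.2) :=
    contDiff_snd.contMDiff
  exact this

/-- smooth maps into `QQ k` -/
theorem smooth_into_QQ (k : ℕ) {E' H' M : Type} [NormedAddCommGroup E'] [NormedSpace ℝ E']
    [TopologicalSpace H'] {I : ModelWithCorners ℝ E' H'} [TopologicalSpace M] [ChartedSpace H' M]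
    {v : M → VV k} {s : M → ℂ} (hv : ContMDiff I 𝓘(ℝ, VV k) ∞ v)
    (hs : ContMDiff I 𝓘(ℝ, ℂ) ∞ s) :
    ContMDiff I 𝓘(ℝ, VV k × ℂ) ∞ (fun x => ((v x, s x) : QQ k)) := by
  have : ContMDiff I 𝓘(ℝ, VV k × ℂ) ∞ (fun x => ((v x, s x) : VV k × ℂ)) := hv.prodMk_space hs
  exact this

instance (k : ℕ) : LieGroup 𝓘(ℝ, VV k × ℂ) ∞ (QQ k) where
  toIsManifold := inferInstanceAs (IsManifold 𝓘(ℝ, VV k × ℂ) ∞ (VV k × ℂ))
  contMDiff_mul := by
    have h1 := (contMDiff_QQ_fst k).comp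
      (contMDiff_fst (I := 𝓘(ℝ, VV k × ℂ)) (J := 𝓘(ℝ, VV k × ℂ)) (M := QQ k) (N := QQ k) (n := ∞))
    have h2 := (contMDiff_QQ_snd k).comp
      (contMDiff_fst (I := 𝓘(ℝ, VV k × ℂ)) (J := 𝓘(ℝ, VV k × ℂ)) (M := QQ k) (N := QQ k) (n := ∞))
    have h3 := (contMDiff_QQ_fst k).comp
      (contMDiff_snd (I := 𝓘(ℝ, VV k × ℂ)) (J := 𝓘(ℝ, VV k × ℂ)) (M := QQ k) (N := QQ k) (n := ∞))
    have h4 := (contMDiff_QQ_snd k).comp
      (contMDiff_snd (I := 𝓘(ℝ, VV k × ℂ)) (J := 𝓘(ℝ, VV k × ℂ)) (M := QQ k) (N := QQ k) (n := ∞))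
    exact smooth_into_QQ k (h1.add (contMDiff_rep k (smooth_uu.comp h2) h3)) (h2.add h4)
  contMDiff_inv := by
    have h1 := contMDiff_QQ_fst k
    have h2 := contMDiff_QQ_snd k
    exact smooth_into_QQ k (contMDiff_rep k (smooth_uu.comp h2.neg) h1).neg h2.neg

/-- the second group: `(ℂ × V) ⋊ SL₂(ℂ)` -/
def LL (k : ℕ) : Type := (ℂ × VV k) × SL(2,ℂ)

instance (k : ℕ) : TopologicalSpace (LL k) :=
  inferInstanceAs (TopologicalSpace ((ℂ × VV k) × SL(2,ℂ)))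
instance (k : ℕ) : T2Space (LL k) := inferInstanceAs (T2Space ((ℂ × VV k) × SL(2,ℂ)))
instance (k : ℕ) : ChartedSpace (ModelProd (ℂ × VV k) (ℂ × ℂ × ℂ)) (LL k) :=
  inferInstanceAs (ChartedSpace (ModelProd (ℂ × VV k) (ℂ × ℂ × ℂ)) ((ℂ × VV k) × SL(2,ℂ)))

instance (k : ℕ) : Group (LL k) where
  mul x y := ((x.1.1 + y.1.1, x.1.2 + rep k x.2 y.1.2), x.2 * y.2)
  one := ((0, 0), 1)
  inv x := ((-x.1.1, - rep k x.2⁻¹ x.1.2), x.2⁻¹)
  mul_assoc x y z := by
    apply Prod.ext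
    · apply Prod.ext
      · exact add_assoc _ _ _
      · change (x.1.2 + rep k x.2 y.1.2) + rep k (x.2 * y.2) z.1.2 =
          x.1.2 + rep k x.2 (y.1.2 + rep k y.2 z.1.2)
        rw [rep_mul, rep_add, add_assoc]
    · exact mul_assoc _ _ _
  one_mul x := by
    apply Prod.ext
    · apply Prod.ext
      · exact zero_add _
      · change 0 + rep k 1 x.1.2 = x.1.2
        rw [rep_one, zero_add]
    · exact one_mul _
  mul_one x := by
    apply Prod.ext
    · apply Prod.ext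
      · exact add_zero _
      · change x.1.2 + rep k x.2 0 = x.1.2
        rw [rep_zero, add_zero]
    · exact mul_one _
  inv_mul_cancel x := by
    apply Prod.ext
    · apply Prod.ext
      · exact neg_add_cancel _
      · change - rep k x.2⁻¹ x.1.2 + rep k x.2⁻¹ x.1.2 = 0
        exact neg_add_cancel _
    · exact inv_mul_cancel _

theorem LL_mul (k : ℕ) (x y : LL k) :
    x * y = ((x.1.1 + y.1.1, x.1.2 + rep k x.2 y.1.2), x.2 * y.2) := rfl
theorem LL_inv (k : ℕ) (x : LL k) : x⁻¹ = ((-x.1.1, - rep k x.2⁻¹ x.1.2), x.2⁻¹) := rfl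
theorem LL_one (k : ℕ) : (1 : LL k) = (((0 : ℂ), (0 : VV k)), (1 : SL(2,ℂ))) := rfl

theorem smooth_LL_1 (k : ℕ) : ContMDiff (𝓘(ℝ, ℂ × VV k).prod 𝓘(ℝ, ℂ × ℂ × ℂ)) 𝓘(ℝ, ℂ × VV k) ∞
    (fun x : LL k => x.1) := by
  have : ContMDiff (𝓘(ℝ, ℂ × VV k).prod 𝓘(ℝ, ℂ × ℂ × ℂ)) 𝓘(ℝ, ℂ × VV k) ∞
    (fun x : (ℂ × VV k) × SL(2,ℂ) => x.1) := contMDiff_fst
  exact this

theorem smooth_LL_11 (k : ℕ) : ContMDiff (𝓘(ℝ, ℂ × VV k).prod 𝓘(ℝ, ℂ × ℂ × ℂ)) 𝓘(ℝ, ℂ) ∞
    (fun x : LL k => x.1.1) := contDiff_fst.contMDiff.comp (smooth_LL_1 k)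

theorem smooth_LL_12 (k : ℕ) : ContMDiff (𝓘(ℝ, ℂ × VV k).prod 𝓘(ℝ, ℂ × ℂ × ℂ)) 𝓘(ℝ, VV k) ∞
    (fun x : LL k => x.1.2) := contDiff_snd.contMDiff.comp (smooth_LL_1 k)

theorem smooth_LL_2 (k : ℕ) : ContMDiff (𝓘(ℝ, ℂ × VV k).prod 𝓘(ℝ, ℂ × ℂ × ℂ)) 𝓘(ℝ, ℂ × ℂ × ℂ) ∞
    (fun x : LL k => x.2) := by
  have : ContMDiff (𝓘(ℝ, ℂ × VV k).prod 𝓘(ℝ, ℂ × ℂ × ℂ)) 𝓘(ℝ, ℂ × ℂ × ℂ) ∞
    (fun x : (ℂ × VV k) × SL(2,ℂ) => x.2) := contMDiff_snd
  exact this

/-- smooth maps into `LL k` -/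
theorem smooth_into_LL (k : ℕ) {E' H' M : Type} [NormedAddCommGroup E'] [NormedSpace ℝ E']
    [TopologicalSpace H'] {I : ModelWithCorners ℝ E' H'} [TopologicalSpace M] [ChartedSpace H' M]
    {t : M → ℂ} {v : M → VV k} {g : M → SL(2,ℂ)} (ht : ContMDiff I 𝓘(ℝ, ℂ) ∞ t)
    (hv : ContMDiff I 𝓘(ℝ, VV k) ∞ v) (hg : ContMDiff I 𝓘(ℝ, ℂ × ℂ × ℂ) ∞ g) :
    ContMDiff I (𝓘(ℝ, ℂ × VV k).prod 𝓘(ℝ, ℂ × ℂ × ℂ)) ∞ (fun x => (((t x, v x), g x) : LL k)) := by
  have : ContMDiff I (𝓘(ℝ, ℂ × VV k).prod 𝓘(ℝ, ℂ × ℂ × ℂ)) ∞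
      (fun x => (((t x, v x), g x) : (ℂ × VV k) × SL(2,ℂ))) := (ht.prodMk_space hv).prodMk hg
  exact this

instance (k : ℕ) : LieGroup (𝓘(ℝ, ℂ × VV k).prod 𝓘(ℝ, ℂ × ℂ × ℂ)) ∞ (LL k) where
  toIsManifold := inferInstanceAs
    (IsManifold (𝓘(ℝ, ℂ × VV k).prod 𝓘(ℝ, ℂ × ℂ × ℂ)) ∞ ((ℂ × VV k) × SL(2,ℂ)))
  contMDiff_mul := by
    have f1 := contMDiff_fst (I := 𝓘(ℝ, ℂ × VV k).prod 𝓘(ℝ, ℂ × ℂ × ℂ))
      (J := 𝓘(ℝ, ℂ × VV k).prod 𝓘(ℝ, ℂ × ℂ × ℂ)) (M := LL k) (N := LL k) (n := ∞)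
    have f2 := contMDiff_snd (I := 𝓘(ℝ, ℂ × VV k).prod 𝓘(ℝ, ℂ × ℂ × ℂ))
      (J := 𝓘(ℝ, ℂ × VV k).prod 𝓘(ℝ, ℂ × ℂ × ℂ)) (M := LL k) (N := LL k) (n := ∞)
    exact smooth_into_LL k (((smooth_LL_11 k).comp f1).add ((smooth_LL_11 k).comp f2))
      (((smooth_LL_12 k).comp f1).add (contMDiff_rep k ((smooth_LL_2 k).comp f1)
        ((smooth_LL_12 k).comp f2)))
      (((smooth_LL_2 k).comp f1).mul ((smooth_LL_2 k).comp f2))
  contMDiff_inv := by
    exact smooth_into_LL k (smooth_LL_11 k).neg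
      (contMDiff_rep k (smooth_LL_2 k).inv (smooth_LL_12 k)).neg (smooth_LL_2 k).inv

/-- the vector group `ℂ × V`, written multiplicatively -/
def MM (k : ℕ) : Type := ℂ × VV k

instance (k : ℕ) : TopologicalSpace (MM k) := inferInstanceAs (TopologicalSpace (ℂ × VV k))
instance (k : ℕ) : T2Space (MM k) := inferInstanceAs (T2Space (ℂ × VV k))
instance (k : ℕ) : SecondCountableTopology (MM k) :=
  inferInstanceAs (SecondCountableTopology (ℂ × VV k))
instance (k : ℕ) : SimplyConnectedSpace (MM k) :=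
  inferInstanceAs (SimplyConnectedSpace (ℂ × VV k))
instance (k : ℕ) : ChartedSpace (ℂ × VV k) (MM k) :=
  inferInstanceAs (ChartedSpace (ℂ × VV k) (ℂ × VV k))

instance (k : ℕ) : CommGroup (MM k) where
  mul x y := (x.1 + y.1, x.2 + y.2)
  one := (0, 0)
  inv x := (-x.1, -x.2)
  mul_assoc x y z := Prod.ext (add_assoc _ _ _) (add_assoc _ _ _)
  one_mul x := Prod.ext (zero_add _) (zero_add _)
  mul_one x := Prod.ext (add_zero _) (add_zero _)
  inv_mul_cancel x := Prod.ext (neg_add_cancel _) (neg_add_cancel _)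
  mul_comm x y := Prod.ext (add_comm _ _) (add_comm _ _)

theorem MM_mul (k : ℕ) (x y : MM k) : x * y = (x.1 + y.1, x.2 + y.2) := rfl

instance (k : ℕ) : LieGroup 𝓘(ℝ, ℂ × VV k) ∞ (MM k) where
  toIsManifold := inferInstanceAs (IsManifold 𝓘(ℝ, ℂ × VV k) ∞ (ℂ × VV k))
  contMDiff_mul := by
    have : ContMDiff (𝓘(ℝ, ℂ × VV k).prod 𝓘(ℝ, ℂ × VV k)) 𝓘(ℝ, ℂ × VV k) ∞
      (fun p : (ℂ × VV k) × (ℂ × VV k) => p.1 + p.2) := contMDiff_add _ _
    exact this
  contMDiff_inv := by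
    have : ContMDiff 𝓘(ℝ, ℂ × VV k) 𝓘(ℝ, ℂ × VV k) ∞
      (fun p : (ℂ × VV k) => -p) := contMDiff_neg _ _
    exact this

end

end Pool.Agent.H68.AM
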