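import Pool.Agent.H68.AM.Theta

/-!
# Nilpotency of `QQ k`
-/

set_option autoImplicit false

namespace Pool.Agent.H68.AM

open Matrix Topology
open scoped Manifold ContDiff MatrixGroups commutatorElement Pointwise

noncomputable section

/-! ### nilpotency of `QQ k` -/

theorem coefM_uu (k : ℕ) (s : ℂ) (i j : ℕ) (hij : j ≤ i) :
    coefM k 1 s 0 1 i j = if i = j then 1 else 0 := by
  unfold coefM
  rw [Finset.sum_eq_single i]
  · rw [Finset.sum_eq_single 0]
    · simp
    · intro m _ hm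
      have : i + m ≠ j := by omega
      simp [this]
    · intro h; simp at h
  · intro l hl hli
    rw [Finset.mem_range] at hl
    have : i - l ≠ 0 := by omega
    apply Finset.sum_eq_zero
    intro m _
    simp [this]
  · intro h; simp at h

theorem rep_uu_apply (k : ℕ) (s : ℂ) (v : VV k) (j : Fin (k + 1)) (h : ∀ i : Fin (k + 1), i < j → v i = 0) :
    rep k (uu s) v j = v j := by
  unfold rep actM
  rw [uu_00, uu_01, uu_10, uu_11]
  rw [Finset.sum_eq_single j]
  · rw [coefM_uu k s j j le_rfl, if_pos rfl, mul_one]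
  · intro i _ hij
    rcases lt_or_ge i j with h1 | h1
    · rw [h i h1, zero_mul]
    · have h2 : (i : ℕ) ≠ (j : ℕ) := fun h => hij (Fin.ext h)
      rw [coefM_uu k s i j (by exact h1), if_neg h2, mul_zero]
  · intro hh; exact absurd (Finset.mem_univ _) hh

/-- the steps of an ascending central series -/
def HH (k n : ℕ) : Subgroup (QQ k) where
  carrier := {x | (n ≤ k + 1 → x.2 = 0) ∧ ∀ i : Fin (k + 1), (i : ℕ) + n ≤ k → x.1 i = 0}
  one_mem' := ⟨fun _ => rfl, fun _ _ => rfl⟩
  mul_mem' := by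
    intro x y hx hy
    refine ⟨fun h => ?_, fun i hi => ?_⟩
    · change x.2 + y.2 = 0
      rw [hx.1 h, hy.1 h, add_zero]
    · change (x.1 + rep k (uu x.2) y.1) i = 0
      rw [hx.1 (by omega), uu_zero, rep_one, Pi.add_apply, hx.2 i hi, hy.2 i hi, add_zero]
  inv_mem' := by
    intro x hx
    refine ⟨fun h => ?_, fun i hi => ?_⟩
    · change -x.2 = 0
      rw [hx.1 h, neg_zero]
    · change (- rep k (uu (-x.2)) x.1) i = 0
      rw [hx.1 (by omega), neg_zero, uu_zero, rep_one, Pi.neg_apply, hx.2 i hi, neg_zero]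

theorem mem_HH (k n : ℕ) (x : QQ k) : x ∈ HH k n ↔
    (n ≤ k + 1 → x.2 = 0) ∧ ∀ i : Fin (k + 1), (i : ℕ) + n ≤ k → x.1 i = 0 := Iff.rfl

/-- an element of `QQ k` from its components -/
def mkQQ (k : ℕ) (v : VV k) (s : ℂ) : QQ k := (v, s)

theorem comm_eq (k : ℕ) (v : VV k) (g : QQ k) :
    ⁅mkQQ k v 0, g⁆ = mkQQ k (v - rep k (uu g.2) v) 0 := by
  rw [commutatorElement_def]
  apply Prod.ext
  · change v + rep k (uu 0) g.1 + rep k (uu (0 + g.2)) (-rep k (uu (-0)) v) +
      rep k (uu (0 + g.2 + -0)) (-rep k (uu (-g.2)) g.1) = v - rep k (uu g.2) v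
    rw [neg_zero, uu_zero, rep_one, rep_one, zero_add, add_zero, rep_neg, rep_neg, ← rep_mul,
      ← uu_add, add_neg_cancel, uu_zero, rep_one]
    abel
  · change 0 + g.2 + -0 + -g.2 = 0
    ring

theorem comm_snd (k : ℕ) (x g : QQ k) : ⁅x, g⁆.2 = 0 := by
  rw [commutatorElement_def]
  change x.2 + g.2 + -x.2 + -g.2 = 0
  ring

theorem isNilpotent_QQ (k : ℕ) : Group.IsNilpotent (QQ k) := by
  rw [Subgroup.nilpotent_iff_finite_ascending_central_series]
  refine ⟨k + 2, HH k, ⟨?_, ?_⟩, ?_⟩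
  · rw [eq_bot_iff]
    intro x hx
    rw [mem_HH] at hx
    rw [Subgroup.mem_bot]
    apply Prod.ext
    · funext i
      exact hx.2 i (by omega)
    · exact hx.1 (by omega)
  · intro x n hx g
    rw [mem_HH] at hx ⊢
    refine ⟨fun _ => comm_snd k x g, fun j hj => ?_⟩
    have h0 : x.2 = 0 := hx.1 (by omega)
    have hx' : x = mkQQ k x.1 0 := by
      apply Prod.ext
      · rfl
      · exact h0
    rw [hx', comm_eq]
    change (x.1 - rep k (uu g.2) x.1) j = 0
    rw [Pi.sub_apply, rep_uu_apply, sub_self]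
    intro i hi
    apply hx.2 i
    have : (i : ℕ) < (j : ℕ) := hi
    omega
  · rw [eq_top_iff]
    intro x _
    rw [mem_HH]
    refine ⟨fun h => by omega, fun i hi => by omega⟩

/-! ### the class of `QQ k` is large -/

/-- one commutator step -/
def DD (k : ℕ) (v : VV k) : VV k := v - rep k (uu 1) v

theorem DD_mem (k : ℕ) (n : ℕ) (v : VV k) :
    mkQQ k ((DD k)^[n] v) 0 ∈ (⊤ : Subgroup (QQ k)).lowerCentralSeries n := by
  induction n with
  | zero => exact Subgroup.mem_top _
  | succ n ih =>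
    rw [Function.iterate_succ_apply', Subgroup.lowerCentralSeries_succ]
    have h : mkQQ k ((DD k) ((DD k)^[n] v)) 0 =
        ⁅mkQQ k ((DD k)^[n] v) 0, mkQQ k 0 1⁆ := by
      rw [comm_eq]; rfl
    rw [h]
    exact Subgroup.commutator_mem_commutator ih (Subgroup.mem_top _)

theorem form_DD (k : ℕ) (v : VV k) (y : ℂ) :
    form k (DD k v) 1 y = - fwdDiff 1 (fun y => form k v 1 y) y := by
  unfold DD fwdDiff
  rw [form_sub, form_rep]
  simp [add_comm]

theorem form_DD_iter (k n : ℕ) (v : VV k) :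
    (fun y => form k ((DD k)^[n] v) 1 y) = (-1 : ℂ) ^ n • (fwdDiff 1)^[n] (fun y => form k v 1 y) := by
  induction n with
  | zero => simp
  | succ n ih =>
    rw [Function.iterate_succ_apply', Function.iterate_succ_apply']
    funext y
    rw [form_DD, ih]
    rw [fwdDiff_const_smul]
    simp [pow_succ]

theorem DD_ne (k : ℕ) : ∃ v : VV k, (DD k)^[k] v ≠ 0 := by
  refine ⟨Pi.single 0 1, fun h => ?_⟩
  have h1 := congrFun (form_DD_iter k k (Pi.single 0 1)) 0
  simp only [h, form_zero] at h1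
  have h2 : (fun y : ℂ => form k (Pi.single 0 1) 1 y) = fun y => y ^ k := by
    funext y
    unfold form
    rw [Finset.sum_eq_single 0]
    · simp
    · intro i _ hi
      simp [hi]
    · intro h; exact absurd (Finset.mem_univ _) h
  rw [h2, fwdDiff_iter_eq_factorial] at h1
  simp at h1
  exact absurd h1 (Nat.factorial_ne_zero k)

theorem lcs_QQ_ne (k : ℕ) : (⊤ : Subgroup (QQ k)).lowerCentralSeries k ≠ ⊥ := by
  intro h
  obtain ⟨v, hv⟩ := DD_ne k
  have h1 := DD_mem k k v
  rw [h, Subgroup.mem_bot] at h1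
  exact hv (congrArg Prod.fst h1)

/-! ### the class of `QQ k` is `k + 1` -/

/-- the steps of an ascending central series of length `k + 1` -/
def HK (k n : ℕ) : Subgroup (QQ k) where
  carrier := {x | (n ≤ k → x.2 = 0) ∧ ∀ i : Fin (k + 1), (i : ℕ) + n ≤ k → x.1 i = 0}
  one_mem' := ⟨fun _ => rfl, fun _ _ => rfl⟩
  mul_mem' := by
    intro x y hx hy
    refine ⟨fun h => ?_, fun i hi => ?_⟩
    · change x.2 + y.2 = 0
      rw [hx.1 h, hy.1 h, add_zero]
    · change (x.1 + rep k (uu x.2) y.1) i = 0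
      rw [hx.1 (by omega), uu_zero, rep_one, Pi.add_apply, hx.2 i hi, hy.2 i hi, add_zero]
  inv_mem' := by
    intro x hx
    refine ⟨fun h => ?_, fun i hi => ?_⟩
    · change -x.2 = 0
      rw [hx.1 h, neg_zero]
    · change (- rep k (uu (-x.2)) x.1) i = 0
      rw [hx.1 (by omega), neg_zero, uu_zero, rep_one, Pi.neg_apply, hx.2 i hi, neg_zero]

theorem mem_HK (k n : ℕ) (x : QQ k) : x ∈ HK k n ↔
    (n ≤ k → x.2 = 0) ∧ ∀ i : Fin (k + 1), (i : ℕ) + n ≤ k → x.1 i = 0 := Iff.rfl

theorem ph_mul (k : ℕ) (x y : QQ k) : ph k (x * y).1 = ph k x.1 + ph k y.1 := by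
  change ph k (x.1 + rep k (uu x.2) y.1) = _
  rw [ph_add, ph_uu]

theorem ph_inv (k : ℕ) (x : QQ k) : ph k (x⁻¹).1 = - ph k x.1 := by
  have h := ph_mul k x⁻¹ x
  rw [inv_mul_cancel] at h
  have h1 : ph k (1 : QQ k).1 = 0 := rfl
  rw [h1] at h
  linear_combination -h

theorem comm_ph (k : ℕ) (x g : QQ k) : ph k (⁅x, g⁆).1 = 0 := by
  rw [commutatorElement_def, ph_mul, ph_mul, ph_mul, ph_inv, ph_inv]
  ring

theorem ascending_HK (k : ℕ) : Subgroup.IsAscendingCentralSeries (HK k) := by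
  refine ⟨?_, ?_⟩
  · rw [eq_bot_iff]
    intro x hx
    rw [mem_HK] at hx
    rw [Subgroup.mem_bot]
    apply Prod.ext
    · funext i
      exact hx.2 i (by omega)
    · exact hx.1 (by omega)
  · intro x n hx g
    rw [mem_HK] at hx ⊢
    refine ⟨fun _ => comm_snd k x g, fun j hj => ?_⟩
    rcases Nat.lt_or_ge n k with hn | hn
    · have h0 : x.2 = 0 := hx.1 (by omega)
      have hx' : x = mkQQ k x.1 0 := by
        apply Prod.ext
        · rfl
        · exact h0
      rw [hx', comm_eq]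
      change (x.1 - rep k (uu g.2) x.1) j = 0
      rw [Pi.sub_apply, rep_uu_apply, sub_self]
      intro i hi
      apply hx.2 i
      have : (i : ℕ) < (j : ℕ) := hi
      omega
    · have hj0 : j = 0 := Fin.ext (by
        change (j : ℕ) = 0
        omega)
      subst hj0
      exact comm_ph k x g

theorem class_QQ (k : ℕ) : Group.nilpotencyClass (QQ k) = k + 1 := by
  have := isNilpotent_QQ k
  apply le_antisymm
  · rw [← Subgroup.upperCentralSeries_eq_top_iff_nilpotencyClass_le]
    rw [eq_top_iff]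
    refine le_trans ?_ (Subgroup.ascending_central_series_le_upper (HK k) (ascending_HK k) (k + 1))
    intro x _
    rw [mem_HK]
    exact ⟨fun h => by omega, fun i hi => by omega⟩
  · by_contra hcon
    push Not at hcon
    exact lcs_QQ_ne k (Subgroup.lowerCentralSeries_eq_bot_iff_nilpotencyClass_le.2 (by omega))


end

end Pool.Agent.H68.AM
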