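import Pool.Agent.H68.AM.RealPart
import Pool.Agent.H68.AM.Defs

/-!
# Class one, the real case
-/

set_option autoImplicit false

namespace Pool.Agent.H68.AMR
open Pool.Agent.Helper337.Amalgam hiding Piece Admissible piece_of_embedding

open Matrix Topology
open scoped Manifold ContDiff MatrixGroups commutatorElement Pointwise

noncomputable section

/-! ### class one: `U × SL(2,ℝ)` and `SL(2,ℝ) × U` in `SL(2,ℝ) × SL(2,ℝ)` -/

/-- the Lie group `ℝ × SL(2,ℝ)` -/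
def LQ : RealLieGroup :=
  letI c : ChartedSpace (ℝ × (ℝ × ℝ × ℝ)) (TT × SL(2,ℝ)) :=
    (inferInstance : ChartedSpace (ModelProd ℝ (ℝ × ℝ × ℝ)) (TT × SL(2,ℝ)))
  { carrier := TT × SL(2,ℝ)
    E := ℝ × (ℝ × ℝ × ℝ)
    lie := by
      have h : LieGroup (𝓘(ℝ, ℝ).prod 𝓘(ℝ, ℝ × ℝ × ℝ)) ∞ (TT × SL(2,ℝ)) := inferInstance
      rw [← modelWithCornersSelf_prod] at h
      exact h }

/-- the Lie group `ℝ` -/
def LT : RealLieGroup where
  carrier := TT
  E := ℝ

/-- the Lie group `ℝ × ℝ` -/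
def LTT : RealLieGroup :=
  letI c : ChartedSpace (ℝ × ℝ) (TT × TT) :=
    (inferInstance : ChartedSpace (ModelProd ℝ ℝ) (TT × TT))
  { carrier := TT × TT
    E := ℝ × ℝ
    lie := by
      have h : LieGroup (𝓘(ℝ, ℝ).prod 𝓘(ℝ, ℝ)) ∞ (TT × TT) := inferInstance
      rw [← modelWithCornersSelf_prod] at h
      exact h }

/-- `t ↦ u(t)` as a homomorphism -/
def uuHom : TT →* SL(2,ℝ) where
  toFun x := uu x
  map_one' := uu_zero
  map_mul' x y := uu_add _ _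

/-- `(t, g) ↦ (u(t), g)` -/
def ff1 : TT × SL(2,ℝ) →* SL(2,ℝ) × SL(2,ℝ) where
  toFun x := (uuHom x.1, x.2)
  map_one' := Prod.ext (map_one _) rfl
  map_mul' _ _ := Prod.ext (map_mul _ _ _) rfl

/-- `(t, g) ↦ (g, u(t))` -/
def ff2 : TT × SL(2,ℝ) →* SL(2,ℝ) × SL(2,ℝ) where
  toFun x := (x.2, uuHom x.1)
  map_one' := Prod.ext rfl (map_one _)
  map_mul' _ _ := Prod.ext rfl (map_mul _ _ _)

/-- `(t, s) ↦ (u(t), u(s))` -/
def ff3 : TT × TT →* SL(2,ℝ) × SL(2,ℝ) where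
  toFun x := (uuHom x.1, uuHom x.2)
  map_one' := Prod.ext (map_one _) (map_one _)
  map_mul' _ _ := Prod.ext (map_mul _ _ _) (map_mul _ _ _)

theorem continuous_uuHom : Continuous uuHom := continuous_uu

/-- the inverse of `u` -/
def tT (g : SL(2,ℝ)) : TT := tau g

theorem continuous_tT : Continuous tT := continuous_tau

theorem tT_uuHom (x : TT) : tT (uuHom x) = x := tau_uu x

theorem emb_ff1 : IsClosedEmbedding ff1 := by
  have hl : Function.LeftInverse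
      (fun y : SL(2,ℝ) × SL(2,ℝ) => ((tT y.1, y.2) : TT × SL(2,ℝ))) ff1 :=
    fun x => Prod.ext (tT_uuHom x.1) rfl
  exact hl.isClosedEmbedding ((continuous_tT.comp continuous_fst).prodMk continuous_snd)
    ((continuous_uuHom.comp continuous_fst).prodMk continuous_snd)

theorem emb_ff2 : IsClosedEmbedding ff2 := by
  have hl : Function.LeftInverse
      (fun y : SL(2,ℝ) × SL(2,ℝ) => ((tT y.2, y.1) : TT × SL(2,ℝ))) ff2 :=
    fun x => Prod.ext (tT_uuHom x.1) rfl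
  exact hl.isClosedEmbedding ((continuous_tT.comp continuous_snd).prodMk continuous_fst)
    (continuous_snd.prodMk (continuous_uuHom.comp continuous_fst))

theorem emb_ff3 : IsClosedEmbedding ff3 := by
  have hl : Function.LeftInverse
      (fun y : SL(2,ℝ) × SL(2,ℝ) => ((tT y.1, tT y.2) : TT × TT)) ff3 :=
    fun x => Prod.ext (tT_uuHom x.1) (tT_uuHom x.2)
  exact hl.isClosedEmbedding
    ((continuous_tT.comp continuous_fst).prodMk (continuous_tT.comp continuous_snd))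
    ((continuous_uuHom.comp continuous_fst).prodMk (continuous_uuHom.comp continuous_snd))

/-- the inclusion of the normal subgroup -/
def jT : TT →* TT × SL(2,ℝ) := MonoidHom.inl _ _

theorem inclT : IsLieInclusion LT LQ jT := by
  let f : LT.carrier → LQ.carrier := jT
  let q : LQ.carrier → LT.carrier := fun x => x.1
  have hs : ContMDiff 𝓘(ℝ, LT.E) 𝓘(ℝ, LQ.E) ∞ f := by
    have h : ContMDiff 𝓘(ℝ, ℝ) (𝓘(ℝ, ℝ).prod 𝓘(ℝ, ℝ × ℝ × ℝ)) ∞
        (fun x : TT => ((x, 1) : TT × SL(2,ℝ))) := contMDiff_id.prodMk contMDiff_const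
    rw [← modelWithCornersSelf_prod] at h
    exact h
  have hq : ContMDiff 𝓘(ℝ, LQ.E) 𝓘(ℝ, LT.E) ∞ q := by
    have h : ContMDiff (𝓘(ℝ, ℝ).prod 𝓘(ℝ, ℝ × ℝ × ℝ)) 𝓘(ℝ, ℝ) ∞
        (fun x : TT × SL(2,ℝ) => x.1) := contMDiff_fst
    rw [← modelWithCornersSelf_prod] at h
    exact h
  exact
    { injective := fun x y h => congrArg Prod.fst h
      smooth := hs
      immersion := immersion_of_leftInverse (M := LT) (L := LQ) f q hs hq (fun x => rfl) }

theorem kerT : (MonoidHom.snd TT SL(2,ℝ)).ker = jT.range := by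
  ext x
  rw [MonoidHom.mem_ker, MonoidHom.mem_range]
  constructor
  · intro h
    exact ⟨x.1, Prod.ext rfl h.symm⟩
  · rintro ⟨y, rfl⟩
    rfl

theorem pieceT (f : TT × SL(2,ℝ) →* SL(2,ℝ) × SL(2,ℝ)) (hf : IsClosedEmbedding f) :
    Pool.Agent.H68.AM.Piece SL(2,ℝ) f.range (jT.range.map f) :=
  Pool.Agent.H68.AM.piece_of_embedding LQ f hf LT jT inclT
    (inferInstanceAs (SimplyConnectedSpace ℝ)) (inferInstanceAs (Group.IsNilpotent TT))
    (MonoidHom.snd TT SL(2,ℝ)) (fun g => ⟨(1, g), rfl⟩) continuous_snd isOpenMap_snd kerT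

/-- the first normal subgroup -/
def CC1 : Subgroup (SL(2,ℝ) × SL(2,ℝ)) := jT.range.map ff1
/-- the second normal subgroup -/
def CC2 : Subgroup (SL(2,ℝ) × SL(2,ℝ)) := jT.range.map ff2

theorem mem_CC1 (x : SL(2,ℝ) × SL(2,ℝ)) : x ∈ CC1 ↔ ∃ t : TT, ((uuHom t, 1) : SL(2,ℝ) × SL(2,ℝ)) = x := by
  unfold CC1
  rw [Subgroup.mem_map]
  constructor
  · rintro ⟨y, ⟨q, rfl⟩, rfl⟩
    exact ⟨q, rfl⟩
  · rintro ⟨q, rfl⟩
    exact ⟨(q, 1), ⟨q, rfl⟩, rfl⟩

theorem mem_CC2 (x : SL(2,ℝ) × SL(2,ℝ)) : x ∈ CC2 ↔ ∃ t : TT, ((1, uuHom t) : SL(2,ℝ) × SL(2,ℝ)) = x := by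
  unfold CC2
  rw [Subgroup.mem_map]
  constructor
  · rintro ⟨y, ⟨q, rfl⟩, rfl⟩
    exact ⟨q, rfl⟩
  · rintro ⟨q, rfl⟩
    exact ⟨(q, 1), ⟨q, rfl⟩, rfl⟩

theorem admissible_one : Pool.Agent.H68.AM.Admissible SL(2,ℝ) ff1.range ff2.range CC1 CC2 where
  topologicalGroup := inferInstance
  hausdorff := inferInstance
  piece₁ := pieceT ff1 emb_ff1
  piece₂ := pieceT ff2 emb_ff2
  product_le := by
    intro b₁ h₁ b₂ h₂
    obtain ⟨t, rfl⟩ := (mem_CC1 _).1 h₁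
    obtain ⟨s, rfl⟩ := (mem_CC2 _).1 h₂
    refine ⟨⟨(t, uuHom s), Prod.ext (mul_one _).symm (one_mul _).symm⟩,
      ⟨(s, uuHom t), Prod.ext (mul_one _).symm (one_mul _).symm⟩⟩
  core := by
    intro N hN _
    rw [eq_bot_iff]
    intro x hx
    obtain ⟨t, ht⟩ := (mem_CC1 _).1 (hN hx).1
    obtain ⟨s, hs⟩ := (mem_CC2 _).1 (hN hx).2
    rw [Subgroup.mem_bot]
    exact Prod.ext (congrArg Prod.fst hs).symm (congrArg Prod.snd ht).symm

theorem gen_one : ff1.range ⊔ ff2.range = ⊤ := by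
  rw [eq_top_iff]
  intro x _
  have h : x = ff1 (1, x.2) * ff2 (1, x.1) := by
    apply Prod.ext
    · change x.1 = uuHom 1 * x.1
      rw [map_one, one_mul]
    · change x.2 = x.2 * uuHom 1
      rw [map_one, mul_one]
  rw [h]
  exact mul_mem ((le_sup_left : ff1.range ≤ ff1.range ⊔ ff2.range) ⟨_, rfl⟩)
    ((le_sup_right : ff2.range ≤ ff1.range ⊔ ff2.range) ⟨_, rfl⟩)

theorem range_ff3 : ff3.range = CC1 ⊔ CC2 := by
  apply le_antisymm
  · rintro _ ⟨x, rfl⟩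
    have h : ff3 x = ((uuHom x.1, 1) : SL(2,ℝ) × SL(2,ℝ)) * (1, uuHom x.2) :=
      Prod.ext (mul_one _).symm (one_mul _).symm
    rw [h]
    exact mul_mem ((le_sup_left : CC1 ≤ CC1 ⊔ CC2) ((mem_CC1 _).2 ⟨_, rfl⟩))
      ((le_sup_right : CC2 ≤ CC1 ⊔ CC2) ((mem_CC2 _).2 ⟨_, rfl⟩))
  · apply sup_le
    · intro x hx
      obtain ⟨q, rfl⟩ := (mem_CC1 x).mp hx
      exact ⟨(q, 1), Prod.ext rfl (map_one _)⟩
    · intro x hx
      obtain ⟨q, rfl⟩ := (mem_CC2 x).mp hx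
      exact ⟨(1, q), Prod.ext (map_one _) rfl⟩

instance : Nontrivial TT := inferInstanceAs (Nontrivial ℝ)

theorem class_TT : Group.nilpotencyClass (TT × TT) = 1 := by
  have h1 : Group.nilpotencyClass (TT × TT) ≤ 1 := CommGroup.nilpotencyClass_le_one
  have h2 : Group.nilpotencyClass (TT × TT) ≠ 0 := by
    intro h
    rw [Group.nilpotencyClass_zero_iff_subsingleton] at h
    exact not_subsingleton (TT × TT) h
  omega

theorem exact_one (S : Subgroup (SL(2,ℝ) × SL(2,ℝ))) (hS : ff3.range = S) :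
    Group.IsNilpotent ↥S ∧ Group.nilpotencyClass ↥S = 1 ∧
      IsClosed (S : Set (SL(2,ℝ) × SL(2,ℝ))) ∧
      ∃ (L : RealLieGroup) (_ : L.carrier ≃ₜ* ↥S), SimplyConnectedSpace L.carrier ∧
        Module.finrank ℝ L.E = 2 * Module.finrank ℝ ℝ := by
  subst hS
  let e := rangeEquiv ff3 emb_ff3
  have h1 : Group.IsNilpotent ↥ff3.range :=
    Group.nilpotent_of_surjective (e : TT × TT →* ↥ff3.range) e.surjective
  refine ⟨h1, ?_, emb_ff3.isClosed_range, ⟨LTT, e, ?_, ?_⟩⟩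
  · apply le_antisymm
    · have h2 := Group.nilpotencyClass_le_of_surjective
        (e : TT × TT →* ↥ff3.range) e.surjective
      rwa [class_TT] at h2
    · have h2 := Group.nilpotencyClass_le_of_surjective
        (e.symm : ↥ff3.range →* TT × TT) e.symm.surjective
      rwa [class_TT] at h2
  · exact inferInstanceAs (SimplyConnectedSpace (ℝ × ℝ))
  · change Module.finrank ℝ (ℝ × ℝ) = _
    rw [Module.finrank_prod]
    ring


end

end Pool.Agent.H68.AMR
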