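import Pool.Graph.R_seed8.Helper337.AmalgamProof

/-!
# The real case: exact class and dimension
-/

set_option autoImplicit false

namespace Pool.Agent.H68.AMR
open Pool.Agent.Helper337.Amalgam

open Matrix Topology
open scoped Manifold ContDiff MatrixGroups commutatorElement Pointwise

noncomputable section

/-! ### the class of `QQ k` is `k + 1` -/

/-- the steps of an ascending central series of length `k + 1` -/
def HK (k n : ℕ) : Subgroup (QQ k) where
  carrier := {x | (n ≤ k → x.2 = 0) ∧ ∀ i : Fin (k + 1), (i : ℕ) + n ≤ k → x.1 i = 0}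
  one_mem' := ⟨fun _ => rfl, fun _ _ => rfl⟩
  mul_mem' := by
    intro x y hx hy
    refine ⟨fun h => ?_, fun i hi => ?_⟩
    · change x.2 + y.2 = 0
      rw [hx.1 h, hy.1 h, add_zero]
    · change (x.1 + rep k (uu x.2) y.1) i = 0
      rw [hx.1 (by omega), uu_zero, rep_one, Pi.add_apply, hx.2 i hi, hy.2 i hi, add_zero]
  inv_mem' := by
    intro x hx
    refine ⟨fun h => ?_, fun i hi => ?_⟩
    · change -x.2 = 0
      rw [hx.1 h, neg_zero]
    · change (- rep k (uu (-x.2)) x.1) i = 0
      rw [hx.1 (by omega), neg_zero, uu_zero, rep_one, Pi.neg_apply, hx.2 i hi, neg_zero]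

theorem mem_HK (k n : ℕ) (x : QQ k) : x ∈ HK k n ↔
    (n ≤ k → x.2 = 0) ∧ ∀ i : Fin (k + 1), (i : ℕ) + n ≤ k → x.1 i = 0 := Iff.rfl

theorem ph_mul (k : ℕ) (x y : QQ k) : ph k (x * y).1 = ph k x.1 + ph k y.1 := by
  change ph k (x.1 + rep k (uu x.2) y.1) = _
  rw [ph_add, ph_uu]

theorem ph_inv (k : ℕ) (x : QQ k) : ph k (x⁻¹).1 = - ph k x.1 := by
  have h := ph_mul k x⁻¹ x
  rw [inv_mul_cancel] at h
  have h1 : ph k (1 : QQ k).1 = 0 := rfl
  rw [h1] at h
  linear_combination -h

theorem comm_ph (k : ℕ) (x g : QQ k) : ph k (⁅x, g⁆).1 = 0 := by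
  rw [commutatorElement_def, ph_mul, ph_mul, ph_mul, ph_inv, ph_inv]
  ring

theorem ascending_HK (k : ℕ) : Subgroup.IsAscendingCentralSeries (HK k) := by
  refine ⟨?_, ?_⟩
  · rw [eq_bot_iff]
    intro x hx
    rw [mem_HK] at hx
    rw [Subgroup.mem_bot]
    apply Prod.ext
    · funext i
      exact hx.2 i (by omega)
    · exact hx.1 (by omega)
  · intro x n hx g
    rw [mem_HK] at hx ⊢
    refine ⟨fun _ => comm_snd k x g, fun j hj => ?_⟩
    rcases Nat.lt_or_ge n k with hn | hn
    · have h0 : x.2 = 0 := hx.1 (by omega)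
      have hx' : x = mkQQ k x.1 0 := by
        apply Prod.ext
        · rfl
        · exact h0
      rw [hx', comm_eq]
      change (x.1 - rep k (uu g.2) x.1) j = 0
      rw [Pi.sub_apply, rep_uu_apply, sub_self]
      intro i hi
      apply hx.2 i
      have : (i : ℕ) < (j : ℕ) := hi
      omega
    · have hj0 : j = 0 := Fin.ext (by
        change (j : ℕ) = 0
        omega)
      subst hj0
      exact comm_ph k x g

theorem class_QQ (k : ℕ) : Group.nilpotencyClass (QQ k) = k + 1 := by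
  have := isNilpotent_QQ k
  apply le_antisymm
  · rw [← Subgroup.upperCentralSeries_eq_top_iff_nilpotencyClass_le]
    rw [eq_top_iff]
    refine le_trans ?_ (Subgroup.ascending_central_series_le_upper (HK k) (ascending_HK k) (k + 1))
    intro x _
    rw [mem_HK]
    exact ⟨fun h => by omega, fun i hi => by omega⟩
  · by_contra hcon
    push Not at hcon
    exact lcs_QQ_ne k (Subgroup.lowerCentralSeries_eq_bot_iff_nilpotencyClass_le.2 (by omega))

/-! ### the group `B₁B₂` -/

/-- the one-dimensional group `ℝ`, written multiplicatively -/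
def TT : Type := ℝ

instance : TopologicalSpace TT := inferInstanceAs (TopologicalSpace ℝ)
instance : T2Space TT := inferInstanceAs (T2Space ℝ)
instance : SecondCountableTopology TT := inferInstanceAs (SecondCountableTopology ℝ)
instance : ChartedSpace ℝ TT := inferInstanceAs (ChartedSpace ℝ ℝ)

/-- the value -/
def tv (x : TT) : ℝ := x

instance : CommGroup TT where
  mul x y := Add.add (α := ℝ) x y
  one := (0 : ℝ)
  inv x := Neg.neg (α := ℝ) x
  mul_assoc x y z := add_assoc (G := ℝ) x y z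
  one_mul x := zero_add (M := ℝ) x
  mul_one x := add_zero (M := ℝ) x
  inv_mul_cancel x := neg_add_cancel (G := ℝ) x
  mul_comm x y := add_comm (G := ℝ) x y

instance : LieGroup 𝓘(ℝ, ℝ) ∞ TT where
  toIsManifold := inferInstanceAs (IsManifold 𝓘(ℝ, ℝ) ∞ ℝ)
  contMDiff_mul := by
    have : ContMDiff (𝓘(ℝ, ℝ).prod 𝓘(ℝ, ℝ)) 𝓘(ℝ, ℝ) ∞
      (fun p : ℝ × ℝ => p.1 + p.2) := contMDiff_add _ _
    exact this
  contMDiff_inv := by
    have : ContMDiff 𝓘(ℝ, ℝ) 𝓘(ℝ, ℝ) ∞ (fun p : ℝ => -p) := contMDiff_neg _ _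
    exact this

/-- the group `ℝ × Q`, isomorphic to `B₁B₂` -/
def LP (k : ℕ) : RealLieGroup :=
  letI c : ChartedSpace (ℝ × (VV k × ℝ)) (TT × QQ k) :=
    (inferInstance : ChartedSpace (ModelProd ℝ (VV k × ℝ)) (TT × QQ k))
  { carrier := TT × QQ k
    E := ℝ × (VV k × ℝ)
    lie := by
      have h : LieGroup (𝓘(ℝ, ℝ).prod 𝓘(ℝ, VV k × ℝ)) ∞ (TT × QQ k) := inferInstance
      rw [← modelWithCornersSelf_prod] at h
      exact h }

/-- the homomorphism onto `B₁B₂` -/
def PT (k : ℕ) : TT × QQ k →* LL k where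
  toFun x := mkLL k x.1 x.2.1 (uu x.2.2)
  map_one' := by
    apply Prod.ext
    · rfl
    · exact uu_zero
  map_mul' x y := by
    apply Prod.ext
    · rfl
    · exact uu_add _ _

theorem emb_PT (k : ℕ) : IsClosedEmbedding (PT k) := by
  have hl : Function.LeftInverse
      (fun y : LL k => (((y.1.1 : ℝ), ((y.1.2, tau y.2) : QQ k)) : TT × QQ k)) (PT k) := by
    intro x
    apply Prod.ext
    · rfl
    · apply Prod.ext
      · rfl
      · exact tau_uu _
  have h2 : Continuous (fun x : LL k => x.2) := (smooth_LL_2 k).continuous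
  have h3 : Continuous (fun x : LL k => tau x.2) := continuous_tau.comp h2
  have h11 : Continuous (fun x : LL k => x.1.1) := (smooth_LL_11 k).continuous
  have h12 : Continuous (fun x : LL k => x.1.2) := (smooth_LL_12 k).continuous
  have h4 : Continuous (fun y : LL k => ((y.1.2, tau y.2) : QQ k)) := h12.prodMk h3
  refine hl.isClosedEmbedding (h11.prodMk h4) ?_
  have g1 : Continuous (fun x : TT × QQ k => (x.1 : ℝ)) := continuous_fst
  have g2 : Continuous (fun x : TT × QQ k => x.2.1) :=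
    (contMDiff_QQ_fst k).continuous.comp continuous_snd
  have g3 : Continuous (fun x : TT × QQ k => x.2.2) :=
    (contMDiff_QQ_snd k).continuous.comp continuous_snd
  have g4 : Continuous (fun x : TT × QQ k =>
      ((((x.1 : ℝ), x.2.1), uu x.2.2) : (ℝ × VV k) × SL(2,ℝ))) :=
    (g1.prodMk g2).prodMk (continuous_uu.comp g3)
  exact g4

/-- the homomorphism onto `B₁B₂` -/
def FF (k : ℕ) : TT × QQ k →* ↥(Gam k) := (kap2 k).comp (PT k)

theorem emb_FF (k : ℕ) : IsClosedEmbedding (FF k) := (emb2 k).comp (emb_PT k)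

theorem range_FF (k : ℕ) : (FF k).range = BB1 k ⊔ BB2 k := by
  apply le_antisymm
  · rintro _ ⟨x, rfl⟩
    have h : PT k x = mkLL k (tv x.1 - ph k x.2.1) 0 1 *
        mkLL k (ph k x.2.1) x.2.1 (uu x.2.2) := by
      apply Prod.ext
      · apply Prod.ext
        · change tv x.1 = (tv x.1 - ph k x.2.1) + ph k x.2.1
          ring
        · change x.2.1 = 0 + rep k 1 x.2.1
          rw [rep_one, zero_add]
      · change uu x.2.2 = 1 * uu x.2.2
        rw [one_mul]
    change kap2 k (PT k x) ∈ _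
    rw [h, map_mul]
    refine mul_mem ?_ ?_
    · exact (le_sup_right : BB2 k ≤ BB1 k ⊔ BB2 k) ((mem_BB2 k _).2 ⟨_, _, rfl⟩)
    · rw [← BB1_eq]
      exact (le_sup_left : BB1 k ≤ BB1 k ⊔ BB2 k) ((mem_BB1 k _).2 ⟨_, rfl⟩)
  · apply sup_le
    · intro x hx
      obtain ⟨q, rfl⟩ := (mem_BB1 k x).mp hx
      exact ⟨((ph k q.1 : ℝ), q), (BB1_eq k q).symm⟩
    · intro x hx
      obtain ⟨t, v, rfl⟩ := (mem_BB2 k x).mp hx
      refine ⟨((t : ℝ), mkQQ k v 0), ?_⟩
      change kap2 k (mkLL k t v (uu 0)) = _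
      rw [uu_zero]

theorem class_prod (k : ℕ) : Group.nilpotencyClass (TT × QQ k) = k + 1 := by
  have := isNilpotent_QQ k
  rw [Group.nilpotencyClass_prod, class_QQ]
  have h : Group.nilpotencyClass TT ≤ 1 := CommGroup.nilpotencyClass_le_one
  omega

theorem exact_class (k : ℕ) (S : Subgroup ↥(Gam k)) (hS : (FF k).range = S) :
    Group.IsNilpotent ↥S ∧ Group.nilpotencyClass ↥S = k + 1 ∧
      IsClosed (S : Set ↥(Gam k)) ∧
      ∃ (L : RealLieGroup) (_ : L.carrier ≃ₜ* ↥S), SimplyConnectedSpace L.carrier ∧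
        Module.finrank ℝ L.E = (k + 3) * Module.finrank ℝ ℝ := by
  subst hS
  have hQ := isNilpotent_QQ k
  have hn : Group.IsNilpotent (TT × QQ k) := inferInstance
  let e := rangeEquiv (FF k) (emb_FF k)
  have h1 : Group.IsNilpotent ↥(FF k).range :=
    Group.nilpotent_of_surjective (e : TT × QQ k →* ↥(FF k).range) e.surjective
  refine ⟨h1, ?_, (emb_FF k).isClosed_range, ⟨LP k, e, ?_, ?_⟩⟩
  · apply le_antisymm
    · have h2 := Group.nilpotencyClass_le_of_surjective
        (e : TT × QQ k →* ↥(FF k).range) e.surjective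
      rwa [class_prod] at h2
    · have h2 := Group.nilpotencyClass_le_of_surjective
        (e.symm : ↥(FF k).range →* TT × QQ k) e.symm.surjective
      rwa [class_prod] at h2
  · exact inferInstanceAs (SimplyConnectedSpace (ℝ × (VV k × ℝ)))
  · change Module.finrank ℝ (ℝ × ((Fin (k + 1) → ℝ) × ℝ)) = _
    rw [Module.finrank_prod, Module.finrank_prod, Module.finrank_pi_fintype]
    simp
    ring


end

end Pool.Agent.H68.AMR
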