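import Mathlib

/-!
# `SL(2,ℂ)` as a real Lie group with one chart
-/

set_option autoImplicit false

namespace Pool.Agent.H68.AM

open Matrix Topology
open scoped Manifold ContDiff MatrixGroups commutatorElement Pointwise

noncomputable section

/-! ### `SL(2,ℂ)` as a Lie group: a single global chart -/

instance instMulC : ContMDiffMul 𝓘(ℝ, ℂ) ∞ ℂ where
  toIsManifold := inferInstance
  contMDiff_mul := by
    rw [contMDiff_iff]
    refine ⟨continuous_mul, fun x y => ?_⟩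
    simp only [mfld_simps]
    rw [contDiffOn_univ]
    exact contDiff_mul

/-- complex conjugation -/
def cj (z : ℂ) : ℂ := starRingEnd ℂ z

@[fun_prop] theorem contDiff_cj : ContDiff ℝ ∞ cj := Complex.conjCLE.contDiff

@[fun_prop] theorem continuous_cj : Continuous cj := Complex.continuous_conj

theorem rr_aux {x y : ℂ} (h : x ≠ 0 ∨ y ≠ 0) : x * cj x + y * cj y ≠ 0 := by
  unfold cj
  rw [Complex.mul_conj, Complex.mul_conj, ← Complex.ofReal_add]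
  intro h0
  have h1 : Complex.normSq x + Complex.normSq y = 0 := by exact_mod_cast h0
  have h2 := Complex.normSq_nonneg x
  have h3 := Complex.normSq_nonneg y
  have h4 : Complex.normSq x = 0 := by linarith
  have h5 : Complex.normSq y = 0 := by linarith
  rw [Complex.normSq_eq_zero] at h4 h5
  rcases h with h | h
  · exact h h4
  · exact h h5

/-- `(c,d)` is the bottom row; `rr = |c|² + |d|²` -/
def rr (g : SL(2,ℂ)) : ℂ := (g 1 0) * cj (g 1 0) + (g 1 1) * cj (g 1 1)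

theorem det_eq (g : SL(2,ℂ)) : g 0 0 * g 1 1 - g 0 1 * g 1 0 = 1 := by
  have := g.det_coe
  rwa [Matrix.det_fin_two] at this

theorem rr_ne (g : SL(2,ℂ)) : rr g ≠ 0 := by
  have h := det_eq g
  refine rr_aux ?_
  by_contra hn
  push Not at hn
  rw [hn.1, hn.2] at h
  simp at h

/-- the unipotent coordinate -/
def tau (g : SL(2,ℂ)) : ℂ := (g 0 0 * cj (g 1 0) + g 0 1 * cj (g 1 1)) / rr g

/-- the upper unipotent matrix -/
def uu (t : ℂ) : SL(2,ℂ) := ⟨!![1, t; 0, 1], by simp [Matrix.det_fin_two]⟩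

@[simp] theorem uu_00 (t : ℂ) : (uu t) 0 0 = 1 := by simp [uu]
@[simp] theorem uu_01 (t : ℂ) : (uu t) 0 1 = t := by simp [uu]
@[simp] theorem uu_10 (t : ℂ) : (uu t) 1 0 = 0 := by simp [uu]
@[simp] theorem uu_11 (t : ℂ) : (uu t) 1 1 = 1 := by simp [uu]

theorem mul_entries (g h : SL(2,ℂ)) (i j : Fin 2) : (g * h) i j = g i 0 * h 0 j + g i 1 * h 1 j := by
  have : (g * h) i j = ((g : Matrix (Fin 2) (Fin 2) ℂ) * (h : Matrix (Fin 2) (Fin 2) ℂ)) i j := rfl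
  rw [this, Matrix.mul_apply, Fin.sum_univ_two]

theorem ext_entries {g h : SL(2,ℂ)} (h00 : g 0 0 = h 0 0) (h01 : g 0 1 = h 0 1)
    (h10 : g 1 0 = h 1 0) (h11 : g 1 1 = h 1 1) : g = h := by
  apply Matrix.SpecialLinearGroup.ext
  intro i j
  fin_cases i <;> fin_cases j <;> assumption

theorem uu_add (s t : ℂ) : uu (s + t) = uu s * uu t := by
  apply ext_entries <;> rw [mul_entries] <;> simp [add_comm]

theorem uu_zero : uu 0 = 1 := by
  apply ext_entries <;> simp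

theorem uu_bottom (t : ℂ) (g : SL(2,ℂ)) : (uu t * g) 1 0 = g 1 0 ∧ (uu t * g) 1 1 = g 1 1 := by
  rw [mul_entries, mul_entries]; simp

theorem tau_uu_mul (t : ℂ) (g : SL(2,ℂ)) : tau (uu t * g) = t + tau g := by
  have h := rr_ne g
  have hr : rr (uu t * g) = rr g := by
    simp [rr, (uu_bottom t g).1, (uu_bottom t g).2]
  unfold tau
  rw [hr, div_eq_iff h, add_mul, div_mul_cancel₀ _ h]
  rw [(uu_bottom t g).1, (uu_bottom t g).2, mul_entries, mul_entries]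
  simp only [uu_00, uu_01, rr]
  ring

theorem tau_one : tau 1 = 0 := by
  simp [tau, cj]

theorem tau_uu (t : ℂ) : tau (uu t) = t := by
  have := tau_uu_mul t 1
  rwa [mul_one, tau_one, add_zero] at this

/-- the chart -/
def Psi (g : SL(2,ℂ)) : ℂ × ℂ × ℂ := (tau g, g 1 0, g 1 1)

/-- the set of values of the chart -/
def tgt : Set (ℂ × ℂ × ℂ) := {p | p.2.1 * cj p.2.1 + p.2.2 * cj p.2.2 ≠ 0}

theorem isOpen_tgt : IsOpen tgt := by
  apply IsOpen.preimage (t := {x : ℂ | x ≠ 0})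
    (f := fun p : ℂ × ℂ × ℂ => p.2.1 * cj p.2.1 + p.2.2 * cj p.2.2)
  · fun_prop
  · exact isOpen_ne

/-- the inverse chart -/
def PsiInv (p : tgt) : SL(2,ℂ) :=
  ⟨!![cj p.1.2.2 * (p.1.2.1 * cj p.1.2.1 + p.1.2.2 * cj p.1.2.2)⁻¹ + p.1.1 * p.1.2.1,
      -cj p.1.2.1 * (p.1.2.1 * cj p.1.2.1 + p.1.2.2 * cj p.1.2.2)⁻¹ + p.1.1 * p.1.2.2;
      p.1.2.1, p.1.2.2], by
    have h : p.1.2.1 * cj p.1.2.1 + p.1.2.2 * cj p.1.2.2 ≠ 0 := p.2
    rw [Matrix.det_fin_two]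
    simp only [Matrix.of_apply, Matrix.cons_val', Matrix.cons_val_zero, Matrix.cons_val_one,
      Matrix.cons_val_fin_one]
    have hi := mul_inv_cancel₀ h
    generalize (p.1.2.1 * cj p.1.2.1 + p.1.2.2 * cj p.1.2.2)⁻¹ = i at *
    linear_combination hi⟩

theorem continuous_entry (i j : Fin 2) : Continuous (fun g : SL(2,ℂ) => g i j) := by
  have h1 : Continuous (fun g : SL(2,ℂ) => (g : Matrix (Fin 2) (Fin 2) ℂ)) :=
    continuous_subtype_val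
  exact h1.matrix_elem i j

theorem continuous_tau : Continuous tau := by
  unfold tau
  apply Continuous.div
  · exact ((continuous_entry 0 0).mul (continuous_cj.comp (continuous_entry 1 0))).add
      ((continuous_entry 0 1).mul (continuous_cj.comp (continuous_entry 1 1)))
  · exact ((continuous_entry 1 0).mul (continuous_cj.comp (continuous_entry 1 0))).add
      ((continuous_entry 1 1).mul (continuous_cj.comp (continuous_entry 1 1)))
  · exact rr_ne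

/-- the chart as a homeomorphism onto its image -/
def PsiHomeo : SL(2,ℂ) ≃ₜ tgt where
  toFun g := ⟨Psi g, rr_ne g⟩
  invFun := PsiInv
  left_inv g := by
    have h := rr_ne g
    have hd := det_eq g
    unfold rr at h
    have hi := mul_inv_cancel₀ h
    apply ext_entries
    · change cj (g 1 1) * (g 1 0 * cj (g 1 0) + g 1 1 * cj (g 1 1))⁻¹ +
        (g 0 0 * cj (g 1 0) + g 0 1 * cj (g 1 1)) / (g 1 0 * cj (g 1 0) + g 1 1 * cj (g 1 1)) *
          g 1 0 = g 0 0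
      rw [div_eq_mul_inv]
      generalize (g 1 0 * cj (g 1 0) + g 1 1 * cj (g 1 1))⁻¹ = i at *
      linear_combination (g 0 0) * hi - i * cj (g 1 1) * hd
    · change -cj (g 1 0) * (g 1 0 * cj (g 1 0) + g 1 1 * cj (g 1 1))⁻¹ +
        (g 0 0 * cj (g 1 0) + g 0 1 * cj (g 1 1)) / (g 1 0 * cj (g 1 0) + g 1 1 * cj (g 1 1)) *
          g 1 1 = g 0 1
      rw [div_eq_mul_inv]
      generalize (g 1 0 * cj (g 1 0) + g 1 1 * cj (g 1 1))⁻¹ = i at *
      linear_combination (g 0 1) * hi + i * cj (g 1 0) * hd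
    · simp [PsiInv, Psi]
    · simp [PsiInv, Psi]
  right_inv p := by
    have h : p.1.2.1 * cj p.1.2.1 + p.1.2.2 * cj p.1.2.2 ≠ 0 := p.2
    have hi := mul_inv_cancel₀ h
    apply Subtype.ext
    apply Prod.ext
    · change ((cj p.1.2.2 * (p.1.2.1 * cj p.1.2.1 + p.1.2.2 * cj p.1.2.2)⁻¹ + p.1.1 * p.1.2.1) *
        cj p.1.2.1 + (-cj p.1.2.1 * (p.1.2.1 * cj p.1.2.1 + p.1.2.2 * cj p.1.2.2)⁻¹ +
          p.1.1 * p.1.2.2) * cj p.1.2.2) / (p.1.2.1 * cj p.1.2.1 + p.1.2.2 * cj p.1.2.2) = p.1.1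
      rw [div_eq_mul_inv]
      generalize (p.1.2.1 * cj p.1.2.1 + p.1.2.2 * cj p.1.2.2)⁻¹ = i at *
      linear_combination p.1.1 * hi
    · simp [PsiInv, Psi]
  continuous_toFun := by
    apply Continuous.subtype_mk
    exact continuous_tau.prodMk ((continuous_entry 1 0).prodMk (continuous_entry 1 1))
  continuous_invFun := by
    apply Continuous.subtype_mk
    apply continuous_matrix
    have h1 : ∀ p : tgt, p.1.2.1 * cj p.1.2.1 + p.1.2.2 * cj p.1.2.2 ≠ 0 := fun p => p.2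
    intro i j
    fin_cases i <;> fin_cases j <;> simp <;> fun_prop (disch := exact h1 _)

theorem isOpenEmbedding_Psi : IsOpenEmbedding Psi := by
  have : Psi = Subtype.val ∘ PsiHomeo := rfl
  rw [this]
  exact isOpen_tgt.isOpenEmbedding_subtypeVal.comp PsiHomeo.isOpenEmbedding

instance chSL : ChartedSpace (ℂ × ℂ × ℂ) SL(2,ℂ) := isOpenEmbedding_Psi.singletonChartedSpace

instance : IsManifold 𝓘(ℝ, ℂ × ℂ × ℂ) ∞ SL(2,ℂ) := isOpenEmbedding_Psi.isManifold_singleton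

theorem contMDiff_Psi : ContMDiff 𝓘(ℝ, ℂ × ℂ × ℂ) 𝓘(ℝ, ℂ × ℂ × ℂ) ∞ Psi :=
  contMDiff_isOpenEmbedding isOpenEmbedding_Psi

theorem smooth_of_Psi {F : ℂ × ℂ × ℂ → ℂ}
    (hF : ∀ p : ℂ × ℂ × ℂ, p.2.1 * cj p.2.1 + p.2.2 * cj p.2.2 ≠ 0 → ContDiffAt ℝ ∞ F p) :
    ContMDiff 𝓘(ℝ, ℂ × ℂ × ℂ) 𝓘(ℝ, ℂ) ∞ (F ∘ Psi) := by
  intro g
  apply ContMDiffAt.comp g _ (contMDiff_Psi g)
  rw [contMDiffAt_iff_contDiffAt]
  exact hF _ (rr_ne g)

theorem smooth_entry (i j : Fin 2) :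
    ContMDiff 𝓘(ℝ, ℂ × ℂ × ℂ) 𝓘(ℝ, ℂ) ∞ (fun g : SL(2,ℂ) => g i j) := by
  have hr : ∀ p : ℂ × ℂ × ℂ, p.2.1 * cj p.2.1 + p.2.2 * cj p.2.2 ≠ 0 →
      ContDiffAt ℝ ∞ (fun p : ℂ × ℂ × ℂ => (p.2.1 * cj p.2.1 + p.2.2 * cj p.2.2)⁻¹) p := by
    intro p hp
    exact ContDiffAt.inv (by fun_prop) hp
  have h10 : ContMDiff 𝓘(ℝ, ℂ × ℂ × ℂ) 𝓘(ℝ, ℂ) ∞ (fun g : SL(2,ℂ) => g 1 0) :=
    smooth_of_Psi (F := fun p => p.2.1) (fun p _ => by fun_prop)
  have h11 : ContMDiff 𝓘(ℝ, ℂ × ℂ × ℂ) 𝓘(ℝ, ℂ) ∞ (fun g : SL(2,ℂ) => g 1 1) :=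
    smooth_of_Psi (F := fun p => p.2.2) (fun p _ => by fun_prop)
  have h00 : ContMDiff 𝓘(ℝ, ℂ × ℂ × ℂ) 𝓘(ℝ, ℂ) ∞ (fun g : SL(2,ℂ) => g 0 0) := by
    have : (fun g : SL(2,ℂ) => g 0 0) =
        (fun p : ℂ × ℂ × ℂ => cj p.2.2 * (p.2.1 * cj p.2.1 + p.2.2 * cj p.2.2)⁻¹ + p.1 * p.2.1) ∘
          Psi := by
      ext g
      have h := PsiHomeo.left_inv g
      have h2 := congrArg (fun g : SL(2,ℂ) => g 0 0) h
      exact h2.symm
    rw [this]
    refine smooth_of_Psi (fun p hp => ?_)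
    exact (ContDiffAt.mul (by fun_prop) (hr p hp)).add (by fun_prop)
  have h01 : ContMDiff 𝓘(ℝ, ℂ × ℂ × ℂ) 𝓘(ℝ, ℂ) ∞ (fun g : SL(2,ℂ) => g 0 1) := by
    have : (fun g : SL(2,ℂ) => g 0 1) =
        (fun p : ℂ × ℂ × ℂ => -cj p.2.1 * (p.2.1 * cj p.2.1 + p.2.2 * cj p.2.2)⁻¹ + p.1 * p.2.2) ∘
          Psi := by
      ext g
      have h := PsiHomeo.left_inv g
      have h2 := congrArg (fun g : SL(2,ℂ) => g 0 1) h
      exact h2.symm
    rw [this]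
    refine smooth_of_Psi (fun p hp => ?_)
    exact (ContDiffAt.mul (by fun_prop) (hr p hp)).add (by fun_prop)
  fin_cases i <;> fin_cases j
  · exact h00
  · exact h01
  · exact h10
  · exact h11

/-- a map into `SL(2,ℂ)` with smooth entries is smooth -/
theorem smooth_into {E' H' M : Type} [NormedAddCommGroup E'] [NormedSpace ℝ E']
    [TopologicalSpace H'] {I : ModelWithCorners ℝ E' H'} [TopologicalSpace M] [ChartedSpace H' M]
    {f : M → SL(2,ℂ)} (hf : ∀ i j : Fin 2, ContMDiff I 𝓘(ℝ, ℂ) ∞ (fun x => f x i j)) :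
    ContMDiff I 𝓘(ℝ, ℂ × ℂ × ℂ) ∞ f := by
  apply ContMDiff.of_comp_isOpenEmbedding isOpenEmbedding_Psi
  have hc : ∀ i j : Fin 2, ContMDiff I 𝓘(ℝ, ℂ) ∞ (fun x => cj (f x i j)) :=
    fun i j => contDiff_cj.contMDiff.comp (hf i j)
  have hn : ContMDiff I 𝓘(ℝ, ℂ) ∞ (fun x => f x 0 0 * cj (f x 1 0) + f x 0 1 * cj (f x 1 1)) :=
    ((hf 0 0).mul (hc 1 0)).add ((hf 0 1).mul (hc 1 1))
  have hr : ContMDiff I 𝓘(ℝ, ℂ) ∞ (fun x => rr (f x)) :=
    ((hf 1 0).mul (hc 1 0)).add ((hf 1 1).mul (hc 1 1))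
  have hi : ContMDiff I 𝓘(ℝ, ℂ) ∞ (fun x => (rr (f x))⁻¹) := by
    intro x
    have h1 : ContMDiffAt 𝓘(ℝ, ℂ) 𝓘(ℝ, ℂ) ∞ (fun z : ℂ => z⁻¹) (rr (f x)) := by
      rw [contMDiffAt_iff_contDiffAt]
      exact contDiffAt_id.inv (rr_ne (f x))
    exact h1.comp x (hr x)
  have h1 : ContMDiff I 𝓘(ℝ, ℂ) ∞ (fun x => tau (f x)) := by
    unfold tau
    simp_rw [div_eq_mul_inv]
    exact hn.mul hi
  exact h1.prodMk_space ((hf 1 0).prodMk_space (hf 1 1))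

instance lieSL : LieGroup 𝓘(ℝ, ℂ × ℂ × ℂ) ∞ SL(2,ℂ) where
  contMDiff_mul := by
    apply smooth_into
    intro i j
    simp only [mul_entries]
    have hl : ∀ i j : Fin 2, ContMDiff (𝓘(ℝ, ℂ × ℂ × ℂ).prod 𝓘(ℝ, ℂ × ℂ × ℂ)) 𝓘(ℝ, ℂ) ∞
        (fun p : SL(2,ℂ) × SL(2,ℂ) => p.1 i j) := fun i j => (smooth_entry i j).comp contMDiff_fst
    have hr : ∀ i j : Fin 2, ContMDiff (𝓘(ℝ, ℂ × ℂ × ℂ).prod 𝓘(ℝ, ℂ × ℂ × ℂ)) 𝓘(ℝ, ℂ) ∞
        (fun p : SL(2,ℂ) × SL(2,ℂ) => p.2 i j) := fun i j => (smooth_entry i j).comp contMDiff_snd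
    exact ((hl i 0).mul (hr 0 j)).add ((hl i 1).mul (hr 1 j))
  contMDiff_inv := by
    apply smooth_into
    intro i j
    have : ∀ x : SL(2,ℂ), (x⁻¹) i j = (Matrix.adjugate (x : Matrix (Fin 2) (Fin 2) ℂ)) i j := by
      intro x; rfl
    simp only [this, Matrix.adjugate_fin_two]
    fin_cases i <;> fin_cases j <;> simp
    · exact smooth_entry 1 1
    · exact (smooth_entry 0 1).neg
    · exact (smooth_entry 1 0).neg
    · exact smooth_entry 0 0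

end

end Pool.Agent.H68.AM
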