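import Pool.Agent.H68.AM.Forms
import Pool.Graph.R_seed8.Helper337.AmalgamProof

/-!
# The two groups inside one homeomorphism group
-/

set_option autoImplicit false

namespace Pool.Agent.H68.AM
open Pool.Agent.Helper337.Amalgam (CE actHom trans trans_ev continuous_actHom isClosedEmbedding_actHom RealLieGroup IsLieInclusion rangeEquiv rangeEquiv_coe quotient_of_hom immersion_of_leftInverse isClosedEmbedding_codRestrict)

open Matrix Topology
open scoped Manifold ContDiff MatrixGroups commutatorElement Pointwise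

noncomputable section

/-! ### the two groups inside one homeomorphism group -/

instance (k : ℕ) : IsTopologicalGroup (QQ k) :=
  topologicalGroup_of_lieGroup 𝓘(ℝ, VV k × ℂ) ∞

instance (k : ℕ) : IsTopologicalGroup (LL k) :=
  topologicalGroup_of_lieGroup (𝓘(ℝ, ℂ × VV k).prod 𝓘(ℝ, ℂ × ℂ × ℂ)) ∞

instance : LocallyCompactSpace SL(2,ℂ) :=
  ChartedSpace.locallyCompactSpace (ℂ × ℂ × ℂ) SL(2,ℂ)

instance : SecondCountableTopology SL(2,ℂ) := isOpenEmbedding_Psi.isInducing.secondCountableTopology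

instance (k : ℕ) : LocallyCompactSpace (LL k) :=
  inferInstanceAs (LocallyCompactSpace ((ℂ × VV k) × SL(2,ℂ)))

instance (k : ℕ) : SecondCountableTopology (LL k) :=
  inferInstanceAs (SecondCountableTopology ((ℂ × VV k) × SL(2,ℂ)))

theorem continuous_uu : Continuous uu := smooth_uu.continuous

theorem continuous_ph (k : ℕ) : Continuous (ph k) := by
  unfold ph; fun_prop

/-- the homeomorphism between the two groups -/
def theta (k : ℕ) : (QQ k × SL(2,ℂ)) ≃ₜ LL k where
  toFun x := ((tau x.2 + ph k x.1.1, x.1.1), uu (x.1.2 - tau x.2) * x.2)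
  invFun y := (((y.1.2, tau y.2) : QQ k), uu (y.1.1 - ph k y.1.2 - tau y.2) * y.2)
  left_inv x := by
    have h1 : tau (uu (x.1.2 - tau x.2) * x.2) = x.1.2 := by
      rw [tau_uu_mul]; ring
    apply Prod.ext
    · change ((x.1.1, tau (uu (x.1.2 - tau x.2) * x.2)) : QQ k) = x.1
      rw [h1]; rfl
    · change uu (tau x.2 + ph k x.1.1 - ph k x.1.1 - tau (uu (x.1.2 - tau x.2) * x.2)) *
        (uu (x.1.2 - tau x.2) * x.2) = x.2
      rw [h1, ← mul_assoc, ← uu_add]
      have : tau x.2 + ph k x.1.1 - ph k x.1.1 - x.1.2 + (x.1.2 - tau x.2) = 0 := by ring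
      rw [this, uu_zero, one_mul]
  right_inv y := by
    have h1 : tau (uu (y.1.1 - ph k y.1.2 - tau y.2) * y.2) = y.1.1 - ph k y.1.2 := by
      rw [tau_uu_mul]; ring
    apply Prod.ext
    · apply Prod.ext
      · change tau (uu (y.1.1 - ph k y.1.2 - tau y.2) * y.2) + ph k y.1.2 = y.1.1
        rw [h1]; ring
      · rfl
    · change uu (tau y.2 - tau (uu (y.1.1 - ph k y.1.2 - tau y.2) * y.2)) *
        (uu (y.1.1 - ph k y.1.2 - tau y.2) * y.2) = y.2
      rw [h1, ← mul_assoc, ← uu_add]
      have : tau y.2 - (y.1.1 - ph k y.1.2) + (y.1.1 - ph k y.1.2 - tau y.2) = 0 := by ring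
      rw [this, uu_zero, one_mul]
  continuous_toFun := by
    have h2 : Continuous (fun x : QQ k × SL(2,ℂ) => tau x.2) := continuous_tau.comp continuous_snd
    have h11 : Continuous (fun x : QQ k × SL(2,ℂ) => x.1.1) :=
      (contMDiff_QQ_fst k).continuous.comp continuous_fst
    have h12 : Continuous (fun x : QQ k × SL(2,ℂ) => x.1.2) :=
      (contMDiff_QQ_snd k).continuous.comp continuous_fst
    have : Continuous (fun x : QQ k × SL(2,ℂ) =>
        (((tau x.2 + ph k x.1.1, x.1.1), uu (x.1.2 - tau x.2) * x.2) : (ℂ × VV k) × SL(2,ℂ))) :=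
      ((h2.add ((continuous_ph k).comp h11)).prodMk h11).prodMk
        ((continuous_uu.comp (h12.sub h2)).mul continuous_snd)
    exact this
  continuous_invFun := by
    have h2 : Continuous (fun x : LL k => x.2) := (smooth_LL_2 k).continuous
    have h3 : Continuous (fun x : LL k => tau x.2) := continuous_tau.comp h2
    have h11 : Continuous (fun x : LL k => x.1.1) := (smooth_LL_11 k).continuous
    have h12 : Continuous (fun x : LL k => x.1.2) := (smooth_LL_12 k).continuous
    have h4 : Continuous (fun y : LL k => ((y.1.2, tau y.2) : QQ k)) := h12.prodMk h3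
    exact h4.prodMk ((continuous_uu.comp ((h11.sub ((continuous_ph k).comp h12)).sub h3)).mul h2)

theorem theta_apply (k : ℕ) (x : QQ k × SL(2,ℂ)) :
    theta k x = ((tau x.2 + ph k x.1.1, x.1.1), uu (x.1.2 - tau x.2) * x.2) := rfl

theorem ph_uu (k : ℕ) (s : ℂ) (v : VV k) : ph k (rep k (uu s) v) = ph k v := by
  rw [ph_rep, ph_eq, uu_10, uu_11]

/-- an element of `LL k` from its components -/
def mkLL (k : ℕ) (t : ℂ) (v : VV k) (g : SL(2,ℂ)) : LL k := ((t, v), g)

theorem theta_equiv (k : ℕ) (t : ℂ) (q : QQ k) (y : QQ k × SL(2,ℂ)) :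
    theta k ((q, uu (t - ph k q.1)) * y) = mkLL k t q.1 (uu q.2) * theta k y := by
  have h1 : tau (uu (t - ph k q.1) * y.2) = t - ph k q.1 + tau y.2 := tau_uu_mul _ _
  apply Prod.ext
  · apply Prod.ext
    · change tau (uu (t - ph k q.1) * y.2) + ph k (q.1 + rep k (uu q.2) y.1.1) =
        t + (tau y.2 + ph k y.1.1)
      rw [h1, ph_add, ph_uu]; ring
    · rfl
  · change uu (q.2 + y.1.2 - tau (uu (t - ph k q.1) * y.2)) * (uu (t - ph k q.1) * y.2) =
      uu q.2 * (uu (y.1.2 - tau y.2) * y.2)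
    rw [h1, ← mul_assoc, ← uu_add, ← mul_assoc, ← uu_add]
    congr 2
    ring

/-- the first embedding -/
def iot1 (k : ℕ) : QQ k × SL(2,ℂ) →* (CE (LL k))ˣ := actHom (theta k)

/-- the second embedding -/
def iot2 (k : ℕ) : LL k →* (CE (LL k))ˣ := actHom (Homeomorph.refl (LL k))

theorem agree (k : ℕ) (t : ℂ) (q : QQ k) :
    iot1 k (q, uu (t - ph k q.1)) = iot2 k (mkLL k t q.1 (uu q.2)) := by
  apply Units.ext
  apply Pool.Agent.Helper337.Amalgam.CE.ext
  intro x
  have h := theta_equiv k t q ((theta k).symm x)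
  rw [Homeomorph.apply_symm_apply] at h
  exact h

end

end Pool.Agent.H68.AM
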